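import Mathlib

/-! Rings with real embeddings, counting by fibres, divisor type bounds. -/

namespace Pool.Agent.MP_2a5a28_nt

open Finset UniqueFactorizationMonoid

/-- A ring with finitely many real embeddings which behaves like the ring of integers of a
totally real field. -/
structure Emb (R : Type*) [CommRing R] (V : Type*) [Fintype V] where
  σ : V → R →+* ℝ
  c : ℝ
  cls : R → ZMod 144 × ZMod 144
  one_le_c : 1 ≤ c
  pos_card : 0 < Fintype.card V
  one_le_norm : ∀ a, a ≠ 0 → 1 ≤ ∏ ν, |σ ν a|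
  two_le_norm : ∀ p, Prime p → 2 ≤ ∏ ν, |σ ν p|
  balance : ∀ a, a ≠ 0 → ∃ u : Rˣ, ∀ ν, |σ ν (u * a)| ^ Fintype.card V ≤ c * ∏ ν, |σ ν a|
  box : ∀ T : ℝ, 1 ≤ T → ∀ S : Finset R,
    (∀ a ∈ S, ∀ ν, |σ ν a| ^ Fintype.card V ≤ T) → (S.card : ℝ) ≤ c * T
  cls_dvd : ∀ a b, cls a = cls b → (144 : R) ∣ a - b

theorem card_le_of_fibers {α β : Type*} [DecidableEq β] (S : Finset α) (f : α → β) (m k : ℝ)
    (hk0 : 0 ≤ k) (hm : ((S.image f).card : ℝ) ≤ m)
    (hk : ∀ S' ⊆ S, (∀ x ∈ S', ∀ y ∈ S', f x = f y) → (S'.card : ℝ) ≤ k) :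
    (S.card : ℝ) ≤ m * k := by
  classical
  have h1 : S.card = ∑ b ∈ S.image f, (S.filter (fun x => f x = b)).card :=
    Finset.card_eq_sum_card_image f S
  have h2 : (S.card : ℝ) ≤ ∑ _b ∈ S.image f, k := by
    rw [h1]; push_cast
    refine Finset.sum_le_sum fun b _ => hk _ (Finset.filter_subset _ _) ?_
    intro x hx y hy
    rw [(Finset.mem_filter.1 hx).2, (Finset.mem_filter.1 hy).2]
  rw [Finset.sum_const, nsmul_eq_mul] at h2
  exact h2.trans (mul_le_mul_of_nonneg_right hm hk0)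

theorem card_le_of_nonempty {α : Type*} (S : Finset α) (k : ℝ) (hk0 : 0 ≤ k)
    (h : ∀ x ∈ S, (S.card : ℝ) ≤ k) : (S.card : ℝ) ≤ k := by
  rcases S.eq_empty_or_nonempty with rfl | ⟨x, hx⟩
  · simpa using hk0
  · exact h x hx

theorem card_le_one' {α : Type*} (S : Finset α) (h : ∀ x ∈ S, ∀ y ∈ S, x = y) :
    (S.card : ℝ) ≤ 1 := by
  have := Finset.card_le_one.2 h
  exact_mod_cast this

theorem exists_pow_bound (δ : ℝ) (hδ : 0 < δ) :
    ∃ C : ℝ, 1 ≤ C ∧ ∀ B : ℝ, 1 ≤ B → ∃ K : ℕ, B ≤ 2 ^ K ∧ (2 * K + 1 : ℝ) ≤ C * B ^ δ := by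
  refine ⟨3 + 4 / δ, by have := div_pos (by norm_num : (0:ℝ) < 4) hδ; linarith, fun B hB => ?_⟩
  have hB0 : 0 < B := by linarith
  have hl : 0 ≤ Real.log B := Real.log_nonneg hB
  have hl2 : (1 / 2 : ℝ) < Real.log 2 := by have := Real.log_two_gt_d9; linarith
  refine ⟨⌈2 * Real.log B⌉₊, ?_, ?_⟩
  · have h1 : Real.log B ≤ (⌈2 * Real.log B⌉₊ : ℝ) * Real.log 2 := by
      have := Nat.le_ceil (2 * Real.log B)
      nlinarith
    calc B = Real.exp (Real.log B) := (Real.exp_log hB0).symm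
      _ ≤ Real.exp ((⌈2 * Real.log B⌉₊ : ℝ) * Real.log 2) := Real.exp_le_exp.2 h1
      _ = 2 ^ ⌈2 * Real.log B⌉₊ := by
        rw [Real.exp_nat_mul, Real.exp_log (by norm_num)]
  · have h1 : (⌈2 * Real.log B⌉₊ : ℝ) < 2 * Real.log B + 1 := Nat.ceil_lt_add_one (by positivity)
    have h2 : Real.log B ≤ B ^ δ / δ := Real.log_le_rpow_div hB0.le hδ
    have h3 : 1 ≤ B ^ δ := Real.one_le_rpow hB hδ.le
    have h4 : (3 + 4 / δ) * B ^ δ = 3 * B ^ δ + 4 * (B ^ δ / δ) := by ring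
    rw [h4]; linarith

theorem int_log_mem (K : ℕ) (x : ℝ) (h1 : 1 ≤ 2 ^ K * x) (h2 : x ≤ 2 ^ K) :
    Int.log 2 x ∈ Finset.Icc (-(K : ℤ)) K := by
  have hK : (0 : ℝ) < 2 ^ K := by positivity
  have hx : 0 < x := by
    by_contra h; push Not at h; nlinarith
  rw [Finset.mem_Icc]
  constructor
  · rw [← Int.zpow_le_iff_le_log (by norm_num) hx]
    rw [zpow_neg, zpow_natCast]
    push_cast
    rw [inv_le_iff_one_le_mul₀ hK]; linarith
  · have : Int.log 2 x < (K : ℤ) + 1 := by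
      rw [← Int.lt_zpow_iff_log_lt (by norm_num) hx]
      push_cast
      rw [zpow_add₀ (by norm_num), zpow_natCast, zpow_one]; linarith
    omega

theorem card_image_log {α ι : Type*} [Fintype ι] [DecidableEq ι] (S : Finset α) (f : ι → α → ℝ)
    (K : ℕ) (h1 : ∀ i, ∀ x ∈ S, 1 ≤ 2 ^ K * f i x) (h2 : ∀ i, ∀ x ∈ S, f i x ≤ 2 ^ K) :
    ((S.image fun x i => Int.log 2 (f i x)).card : ℝ) ≤ (2 * K + 1) ^ Fintype.card ι := by
  have : S.image (fun x i => Int.log 2 (f i x)) ⊆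
      Fintype.piFinset fun _ : ι => Finset.Icc (-(K : ℤ)) K := by
    intro g hg
    obtain ⟨x, hx, rfl⟩ := Finset.mem_image.1 hg
    exact Fintype.mem_piFinset.2 fun i => int_log_mem K _ (h1 i x hx) (h2 i x hx)
  have h3 := Finset.card_le_card this
  rw [Fintype.card_piFinset, Finset.prod_const, Finset.card_univ, Int.card_Icc] at h3
  have h4 : ((K : ℤ) + 1 - -(K : ℤ)).toNat = 2 * K + 1 := by omega
  rw [h4] at h3
  exact_mod_cast h3

theorem le_two_mul_of_log_eq {x y : ℝ} (hy : 0 < y)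
    (h : Int.log 2 x = Int.log 2 y) : x ≤ 2 * y := by
  have h1 := Int.lt_zpow_succ_log_self (R := ℝ) (b := 2) (by norm_num) x
  have h2 := Int.zpow_log_le_self (R := ℝ) (b := 2) (by norm_num) hy
  rw [h, zpow_add₀ (by norm_num), zpow_one] at h1
  push_cast at h1 h2
  linarith

variable {R : Type*} [CommRing R] {V : Type*} [Fintype V]

namespace Emb

variable (E : Emb R V)

/-- The norm. -/
noncomputable def N (a : R) : ℝ := ∏ ν, |E.σ ν a|

theorem N_mul (a b : R) : E.N (a * b) = E.N a * E.N b := by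
  simp [N, abs_mul, Finset.prod_mul_distrib]

theorem N_one : E.N 1 = 1 := by simp [N]

theorem N_pow (a : R) (k : ℕ) : E.N (a ^ k) = E.N a ^ k := by
  simp [N, abs_pow, Finset.prod_pow]

theorem N_nonneg (a : R) : 0 ≤ E.N a := Finset.prod_nonneg fun _ _ => abs_nonneg _

theorem one_le_N {a : R} (h : a ≠ 0) : 1 ≤ E.N a := E.one_le_norm a h

theorem N_pos {a : R} (h : a ≠ 0) : 0 < E.N a := lt_of_lt_of_le one_pos (E.one_le_N h)

theorem N_prod {ι : Type*} (s : Finset ι) (f : ι → R) :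
    E.N (∏ i ∈ s, f i) = ∏ i ∈ s, E.N (f i) := by
  classical
  induction s using Finset.induction_on with
  | empty => simp [N_one]
  | insert a s ha ih => rw [Finset.prod_insert ha, Finset.prod_insert ha, N_mul, ih]

theorem N_le_of_dvd {a b : R} (h : a ∣ b) (hb : b ≠ 0) : E.N a ≤ E.N b := by
  obtain ⟨d, rfl⟩ := h
  have hd : d ≠ 0 := fun h => hb (by simp [h])
  rw [N_mul]
  exact le_mul_of_one_le_right (E.N_nonneg a) (E.one_le_N hd)

theorem N_unit [Nontrivial R] (u : Rˣ) : E.N u = 1 := by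
  have h1 := E.one_le_N u.ne_zero
  have h2 := E.N_le_of_dvd (u.isUnit.dvd (a := 1)) one_ne_zero
  rw [N_one] at h2
  exact le_antisymm h2 h1

theorem N_associated [Nontrivial R] {a b : R} (h : Associated a b) : E.N a = E.N b := by
  obtain ⟨u, rfl⟩ := h
  rw [N_mul, N_unit, mul_one]

theorem abs_pos {a : R} (h : a ≠ 0) (ν : V) : 0 < |E.σ ν a| := by
  have := E.N_pos h
  rcases (abs_nonneg (E.σ ν a)).lt_or_eq with h1 | h1
  · exact h1
  · exfalso
    have : E.N a = 0 := Finset.prod_eq_zero (Finset.mem_univ ν) h1.symm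
    linarith

theorem ne_zero {a : R} (h : a ≠ 0) (ν : V) : E.σ ν a ≠ 0 := _root_.abs_pos.1 (E.abs_pos h ν)

theorem N_le_of_box {a : R} {T : V → ℝ} (h : ∀ ν, |E.σ ν a| ≤ T ν) : E.N a ≤ ∏ ν, T ν :=
  Finset.prod_le_prod (fun _ _ => abs_nonneg _) fun ν _ => h ν

theorem N_le_pow {a : R} {B : ℝ} (h : ∀ ν, |E.σ ν a| ≤ B) : E.N a ≤ B ^ Fintype.card V := by
  simpa using E.N_le_of_box (T := fun _ => B) h

theorem one_le_box {a : R} (ha : a ≠ 0) {B : ℝ} (h : ∀ ν, |E.σ ν a| ≤ B) : 1 ≤ B := by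
  have h1 := (E.one_le_N ha).trans (E.N_le_pow h)
  obtain ⟨ν⟩ : Nonempty V := Fintype.card_pos_iff.1 E.pos_card
  have h0 : 0 ≤ B := (abs_nonneg _).trans (h ν)
  by_contra hB
  push Not at hB
  have := pow_lt_one₀ h0 hB E.pos_card.ne'
  linarith

/-- Lower bound for the conjugates of a nonzero element of a box. -/
theorem one_le_pow_mul {a : R} (ha : a ≠ 0) {B : ℝ} (h : ∀ ν, |E.σ ν a| ≤ B) (ν : V) :
    1 ≤ B ^ (Fintype.card V - 1) * |E.σ ν a| := by
  classical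
  have h1 := E.one_le_N ha
  unfold N at h1
  rw [← Finset.prod_erase_mul _ _ (Finset.mem_univ ν)] at h1
  refine h1.trans (mul_le_mul_of_nonneg_right ?_ (abs_nonneg _))
  calc ∏ x ∈ Finset.univ.erase ν, |E.σ x a| ≤ ∏ _x ∈ Finset.univ.erase ν, B :=
        Finset.prod_le_prod (fun _ _ => abs_nonneg _) fun ν _ => h ν
    _ = B ^ (Fintype.card V - 1) := by
        rw [Finset.prod_const, Finset.card_erase_of_mem (Finset.mem_univ ν), Finset.card_univ]

theorem box_of_mul {d y : R} (hd : d ≠ 0) {B : ℝ} (h1 : ∀ ν, |E.σ ν d| ≤ B)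
    (h2 : ∀ ν, |E.σ ν (d * y)| ≤ B) (ν : V) : |E.σ ν y| ≤ B ^ Fintype.card V := by
  have hB := E.one_le_box hd h1
  have h3 := E.one_le_pow_mul hd h1 ν
  have h4 := h2 ν
  rw [map_mul, abs_mul] at h4
  have h5 : B ^ Fintype.card V = B ^ (Fintype.card V - 1) * B := by
    rw [← pow_succ]; congr 1; have := E.pos_card; omega
  have h6 : 0 ≤ B ^ (Fintype.card V - 1) := by positivity
  calc |E.σ ν y| ≤ (B ^ (Fintype.card V - 1) * |E.σ ν d|) * |E.σ ν y| :=
        le_mul_of_one_le_left (abs_nonneg _) h3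
    _ = B ^ (Fintype.card V - 1) * (|E.σ ν d| * |E.σ ν y|) := by ring
    _ ≤ B ^ (Fintype.card V - 1) * B := mul_le_mul_of_nonneg_left h4 h6
    _ = _ := h5.symm

/-- A balanced associate of a divisor of an element of a box lies in a slightly larger box. -/
theorem exists_bal {d : R} (hd : d ≠ 0) {B : ℝ} (hB : 0 ≤ B) (h : E.N d ≤ B ^ Fintype.card V) :
    ∃ u : Rˣ, ∀ ν, |E.σ ν (u * d)| ≤ E.c * B := by
  obtain ⟨u, hu⟩ := E.balance d hd
  refine ⟨u, fun ν => ?_⟩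
  have hc := E.one_le_c
  have h1 : |E.σ ν (u * d)| ^ Fintype.card V ≤ (E.c * B) ^ Fintype.card V := by
    refine (hu ν).trans ?_
    rw [mul_pow]
    refine mul_le_mul ?_ h (E.N_nonneg d) (by positivity)
    exact le_self_pow₀ hc E.pos_card.ne'
  exact le_of_pow_le_pow_left₀ E.pos_card.ne' (by positivity) h1

end Emb

end Pool.Agent.MP_2a5a28_nt
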