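import Pool.Agent.MP_2a5a28_nt.Basic

/-! Divisor type bounds. -/

namespace Pool.Agent.MP_2a5a28_nt

open Finset UniqueFactorizationMonoid

set_option linter.unusedSectionVars false

variable {R : Type*} [CommRing R] [IsDomain R] [UniqueFactorizationMonoid R]
  [NormalizationMonoid R] {V : Type*} [Fintype V]

/-- `Δ` bounds all divisor type quantities of elements of size at most `B`. -/
structure Small (E : Emb R V) (B Δ : ℝ) : Prop where
  one_le : 1 ≤ Δ
  smooth : ∀ r, r ≠ 0 → E.N r ≤ B → ∀ S : Finset R,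
    (∀ d ∈ S, d ≠ 0 ∧ (∀ ν, |E.σ ν d| ≤ B) ∧ ∀ p, Prime p → p ∣ d → p ∣ r) → (S.card : ℝ) ≤ Δ
  omega : ∀ r, r ≠ 0 → E.N r ≤ B → (4 : ℝ) ^ (primeFactors r).card ≤ Δ

namespace Emb

variable (E : Emb R V)

theorem card_normalized (Y : ℝ) (hY : 1 ≤ Y) (S : Finset R)
    (h : ∀ p ∈ S, p ≠ 0 ∧ normalize p = p ∧ E.N p ≤ Y) : (S.card : ℝ) ≤ E.c * (E.c * Y) := by
  classical
  have hb : ∀ p : R, ∃ u : Rˣ, p ≠ 0 → ∀ ν, |E.σ ν (u * p)| ^ Fintype.card V ≤ E.c * E.N p := by
    intro p
    by_cases hp : p = 0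
    · exact ⟨1, fun h => (h hp).elim⟩
    · obtain ⟨u, hu⟩ := E.balance p hp
      exact ⟨u, fun _ => hu⟩
  choose u hu using hb
  have hc := E.one_le_c
  have hinj : Set.InjOn (fun p => (u p : R) * p) S := by
    intro p hp q hq hpq
    have h1 : Associated p q := by
      have e1 : Associated p ((u p : R) * p) := ⟨u p, by rw [mul_comm]⟩
      have e2 : Associated q ((u q : R) * q) := ⟨u q, by rw [mul_comm]⟩
      have hpq' : (u p : R) * p = (u q : R) * q := hpq
      rw [hpq'] at e1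
      exact e1.trans e2.symm
    exact h1.eq_of_normalized (h p hp).2.1 (h q hq).2.1
  rw [← Finset.card_image_of_injOn hinj]
  refine E.box _ (by nlinarith) _ ?_
  intro a ha ν
  obtain ⟨p, hp, rfl⟩ := Finset.mem_image.1 ha
  exact (hu p (h p hp).1 ν).trans (mul_le_mul_of_nonneg_left (h p hp).2.2 (by linarith))

theorem prime_of_mem {p r : R} (hp : p ∈ primeFactors r) : Prime p :=
  prime_of_normalized_factor p (mem_primeFactors.1 hp)

theorem pow_omega_le (C ε : ℝ) (hC : 1 ≤ C) (hε : 0 < ε) :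
    ∃ C' : ℝ, 1 ≤ C' ∧ ∀ r : R, r ≠ 0 → C ^ (primeFactors r).card ≤ C' * E.N r ^ ε := by
  classical
  set Y : ℝ := C ^ (1 / ε) with hY
  have hY1 : 1 ≤ Y := Real.one_le_rpow hC (by positivity)
  refine ⟨C ^ ⌈E.c * (E.c * Y)⌉₊, one_le_pow₀ hC, fun r hr => ?_⟩
  set P := primeFactors r with hP
  have hsplit := Finset.card_filter_add_card_filter_not (s := P) (fun p => E.N p ≤ Y)
  rw [← hsplit, pow_add]
  have h1 : (P.filter fun p => E.N p ≤ Y).card ≤ ⌈E.c * (E.c * Y)⌉₊ := by
    have := E.card_normalized Y hY1 (P.filter fun p => E.N p ≤ Y) (fun p hp => by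
      obtain ⟨hp1, hp2⟩ := Finset.mem_filter.1 hp
      exact ⟨(prime_of_mem hp1).ne_zero, normalize_normalized_factor p (mem_primeFactors.1 hp1), hp2⟩)
    exact_mod_cast this.trans (Nat.le_ceil _)
  have h2 : C ^ (P.filter fun p => ¬ E.N p ≤ Y).card ≤ E.N r ^ ε := by
    rw [← Finset.prod_const]
    calc ∏ _p ∈ P.filter (fun p => ¬ E.N p ≤ Y), C
        ≤ ∏ p ∈ P.filter (fun p => ¬ E.N p ≤ Y), E.N p ^ ε := by
          refine Finset.prod_le_prod (fun _ _ => by linarith) fun p hp => ?_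
          have h3 : Y ≤ E.N p := (not_le.1 (Finset.mem_filter.1 hp).2).le
          have h4 : Y ^ ε = C := by
            rw [hY, ← Real.rpow_mul (by linarith), one_div_mul_cancel hε.ne', Real.rpow_one]
          rw [← h4]
          exact Real.rpow_le_rpow (by linarith) h3 hε.le
      _ = (∏ p ∈ P.filter (fun p => ¬ E.N p ≤ Y), E.N p) ^ ε :=
          Real.finsetProd_rpow _ _ (fun p _ => E.N_nonneg p) ε
      _ ≤ E.N r ^ ε := by
          refine Real.rpow_le_rpow (Finset.prod_nonneg fun p _ => E.N_nonneg p) ?_ hε.le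
          rw [← E.N_prod]
          refine E.N_le_of_dvd ?_ hr
          refine dvd_trans (Finset.prod_dvd_prod_of_subset _ _ _ (Finset.filter_subset _ _)) ?_
          exact radical_dvd_self
  exact mul_le_mul (pow_le_pow_right₀ hC h1) h2 (by positivity) (by positivity)

theorem card_associated (K : ℕ) (B : ℝ) (hK : B ^ Fintype.card V ≤ 2 ^ K) (S : Finset R)
    (h : ∀ d ∈ S, d ≠ 0 ∧ ∀ ν, |E.σ ν d| ≤ B) (ha : ∀ d ∈ S, ∀ e ∈ S, Associated d e) :
    (S.card : ℝ) ≤ (2 * K + 1) ^ Fintype.card V * (E.c * 2 ^ Fintype.card V) := by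
  classical
  have hc := E.one_le_c
  refine card_le_of_fibers S (fun d ν => Int.log 2 |E.σ ν d|) _ _ (by positivity) ?_ ?_
  · refine card_image_log S (fun ν d => |E.σ ν d|) K ?_ ?_
    · intro ν d hd
      have hB := E.one_le_box (h d hd).1 (h d hd).2
      refine (E.one_le_pow_mul (h d hd).1 (h d hd).2 ν).trans ?_
      refine mul_le_mul_of_nonneg_right ?_ (abs_nonneg _)
      exact (pow_le_pow_right₀ hB (Nat.sub_le _ _)).trans hK
    · intro ν d hd
      have hB := E.one_le_box (h d hd).1 (h d hd).2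
      exact ((h d hd).2 ν).trans ((le_self_pow₀ hB E.pos_card.ne').trans hK)
  · intro S' hS' hc'
    refine card_le_of_nonempty _ _ (by positivity) fun d₀ hd₀ => ?_
    have hu : ∀ d : R, ∃ u : R, d ∈ S' → d₀ * u = d := by
      intro d
      by_cases hd : d ∈ S'
      · obtain ⟨u, hu⟩ := ha d₀ (hS' hd₀) d (hS' hd)
        exact ⟨u, fun _ => hu⟩
      · exact ⟨1, fun h => (hd h).elim⟩
    choose u hu using hu
    have hinj : Set.InjOn u S' := by
      intro p hp q hq hpq
      rw [← hu p hp, ← hu q hq, hpq]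
    rw [← Finset.card_image_of_injOn hinj]
    refine E.box _ (one_le_pow₀ (by norm_num)) _ ?_
    intro a ha ν
    obtain ⟨d, hd, rfl⟩ := Finset.mem_image.1 ha
    have h0 := E.abs_pos (h d₀ (hS' hd₀)).1 ν
    have h1 := le_two_mul_of_log_eq h0 (congrFun (hc' d hd d₀ hd₀) ν)
    rw [← hu d hd, map_mul, abs_mul] at h1
    refine pow_le_pow_left₀ (abs_nonneg _) ?_ _
    nlinarith

theorem two_pow_card_le {d : R} (hd : d ≠ 0) :
    (2 : ℝ) ^ Multiset.card (normalizedFactors d) ≤ E.N d := by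
  rw [← E.N_associated (prod_normalizedFactors hd)]
  have : ∀ m : Multiset R, (∀ p ∈ m, Prime p) → (2 : ℝ) ^ Multiset.card m ≤ E.N m.prod := by
    intro m
    induction m using Multiset.induction_on with
    | empty => intro _; simp [N_one]
    | cons a m ih =>
      intro h
      rw [Multiset.card_cons, Multiset.prod_cons, N_mul, pow_succ, mul_comm]
      exact mul_le_mul (E.two_le_norm a (h a (Multiset.mem_cons_self _ _)))
        (ih fun p hp => h p (Multiset.mem_cons_of_mem hp)) (by positivity) (E.N_nonneg a)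
  exact this _ fun p hp => prime_of_normalized_factor p hp

theorem card_exponents {ι : Type*} [Fintype ι] [DecidableEq ι] (ε X : ℝ) (hε : 0 < ε) (hX : 0 < X)
    (S : Finset (ι → ℕ)) (h : ∀ e ∈ S, (2 : ℝ) ^ (∑ i, e i) ≤ X) :
    (S.card : ℝ) ≤ X ^ ε * (1 - (2 : ℝ) ^ (-ε))⁻¹ ^ Fintype.card ι := by
  set q : ℝ := (2 : ℝ) ^ (-ε) with hq
  have hq0 : 0 < q := by positivity
  have hq1 : q < 1 := Real.rpow_lt_one_of_one_lt_of_neg (by norm_num) (by linarith)
  obtain ⟨K, hK⟩ : ∃ K : ℕ, ∀ e ∈ S, ∀ i, e i < K := by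
    refine ⟨S.sup (fun e => ∑ i, e i) + 1, fun e he i => Nat.lt_succ_of_le ?_⟩
    exact (Finset.single_le_sum (f := e) (fun _ _ => Nat.zero_le _) (Finset.mem_univ i)).trans
      (Finset.le_sup (f := fun e => ∑ i, e i) he)
  have h1 : (S.card : ℝ) ≤ ∑ e ∈ S, X ^ ε * ∏ i, q ^ e i := by
    rw [Finset.card_eq_sum_ones]; push_cast
    refine Finset.sum_le_sum fun e he => ?_
    rw [Finset.prod_pow_eq_pow_sum, hq, ← Real.rpow_natCast, ← Real.rpow_mul (by norm_num)]
    have h2 : ((2 : ℝ) ^ (∑ i, e i)) ^ ε ≤ X ^ ε := Real.rpow_le_rpow (by positivity) (h e he) hε.le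
    rw [← Real.rpow_natCast, ← Real.rpow_mul (by norm_num)] at h2
    calc (1 : ℝ) = 2 ^ (((∑ i, e i : ℕ) : ℝ) * ε) * 2 ^ (-ε * ((∑ i, e i : ℕ) : ℝ)) := by
          rw [← Real.rpow_add (by norm_num)]
          simp [mul_comm]
      _ ≤ _ := mul_le_mul_of_nonneg_right h2 (by positivity)
  rw [← Finset.mul_sum] at h1
  refine h1.trans (mul_le_mul_of_nonneg_left ?_ (by positivity))
  calc ∑ e ∈ S, ∏ i, q ^ e i
      ≤ ∑ e ∈ Fintype.piFinset (fun _ : ι => Finset.range K), ∏ i, q ^ e i := by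
        refine Finset.sum_le_sum_of_subset_of_nonneg ?_ fun _ _ _ => by positivity
        intro e he
        exact Fintype.mem_piFinset.2 fun i => Finset.mem_range.2 (hK e he i)
    _ = ∏ _i : ι, ∑ j ∈ Finset.range K, q ^ j :=
        (Finset.prod_univ_sum (fun _ : ι => Finset.range K) fun _ j => q ^ j).symm
    _ ≤ ∏ _i : ι, (1 - q)⁻¹ := by
        refine Finset.prod_le_prod (fun _ _ => by positivity) fun _ _ => ?_
        rw [← tsum_geometric_of_lt_one hq0.le hq1]
        exact (summable_geometric_of_lt_one hq0.le hq1).sum_le_tsum _ fun _ _ => by positivity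
    _ = _ := by rw [Finset.prod_const, Finset.card_univ]

theorem exists_small (ε : ℝ) (hε : 0 < ε) :
    ∃ C : ℝ, 1 ≤ C ∧ ∀ B : ℝ, 1 ≤ B → Small E B (C * B ^ ε) := by
  classical
  have hn := E.pos_card
  set n := Fintype.card V with hndef
  have hn' : (0 : ℝ) < n := by exact_mod_cast hn
  have hc := E.one_le_c
  set δ : ℝ := ε / 3 with hδ
  have hδ0 : 0 < δ := by positivity
  set q : ℝ := (1 - (2 : ℝ) ^ (-(δ / n)))⁻¹ with hq
  have hq1 : 1 ≤ q := by
    have h1 : (2 : ℝ) ^ (-(δ / n)) < 1 :=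
      Real.rpow_lt_one_of_one_lt_of_neg (by norm_num) (by have := div_pos hδ0 hn'; linarith)
    have h2 : (0 : ℝ) < (2 : ℝ) ^ (-(δ / n)) := by positivity
    rw [hq]
    exact (one_le_inv₀ (by linarith)).2 (by linarith)
  obtain ⟨C₁, hC₁, h₁⟩ := E.pow_omega_le q δ hq1 hδ0
  obtain ⟨C₂, hC₂, h₂⟩ := E.pow_omega_le 4 ε (by norm_num) hε
  obtain ⟨C₃, hC₃, h₃⟩ := exists_pow_bound (δ / (n * n)) (by positivity)
  have hD : 1 ≤ C₁ * (C₃ ^ n * (E.c * 2 ^ n)) :=
    one_le_mul_of_one_le_of_one_le hC₁ (one_le_mul_of_one_le_of_one_le (one_le_pow₀ hC₃)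
      (one_le_mul_of_one_le_of_one_le hc (one_le_pow₀ (by norm_num))))
  refine ⟨C₂ * (C₁ * (C₃ ^ n * (E.c * 2 ^ n))), one_le_mul_of_one_le_of_one_le hC₂ hD,
    fun B hB => ⟨?_, ?_, ?_⟩⟩
  · exact one_le_mul_of_one_le_of_one_le (one_le_mul_of_one_le_of_one_le hC₂ hD)
      (Real.one_le_rpow hB hε.le)
  · intro r hr hrB S hS
    obtain ⟨K, hK1, hK2⟩ := h₃ (B ^ n) (one_le_pow₀ hB)
    have hB0 : 0 < B := by linarith
    have key : (S.card : ℝ) ≤ ((B ^ n) ^ (δ / n) * q ^ (primeFactors r).card) *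
        ((2 * K + 1) ^ n * (E.c * 2 ^ n)) := by
      refine card_le_of_fibers S
        (fun d (p : primeFactors r) => Multiset.count (p : R) (normalizedFactors d)) _ _
        (by positivity) ?_ ?_
      · have := card_exponents (ι := primeFactors r) (δ / n) (B ^ n) (by positivity) (by positivity)
          (S.image fun d (p : primeFactors r) => Multiset.count (p : R) (normalizedFactors d)) ?_
        · rwa [Fintype.card_coe] at this
        intro e he
        obtain ⟨d, hd, rfl⟩ := Finset.mem_image.1 he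
        refine le_trans ?_ ((E.two_pow_card_le (hS d hd).1).trans (E.N_le_pow (hS d hd).2.1))
        refine pow_le_pow_right₀ (by norm_num) ?_
        rw [Finset.sum_coe_sort (primeFactors r) (fun p => Multiset.count p (normalizedFactors d))]
        rw [← Multiset.sum_count_eq_card (s := primeFactors r ∪ (normalizedFactors d).toFinset)
          (fun a ha => Finset.mem_union_right _ (Multiset.mem_toFinset.2 ha))]
        exact Finset.sum_le_sum_of_subset Finset.subset_union_left
      · intro S' hS' hc'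
        refine E.card_associated K B hK1 S' (fun d hd => ⟨(hS d (hS' hd)).1, (hS d (hS' hd)).2.1⟩) ?_
        intro d hd e he
        have hsub : ∀ d ∈ S', ∀ p ∈ normalizedFactors d, p ∈ primeFactors r := by
          intro d hd p hp
          rw [mem_primeFactors, mem_normalizedFactors_iff' hr]
          have hp' := prime_of_normalized_factor p hp
          exact ⟨hp'.irreducible, normalize_normalized_factor p hp,
            (hS d (hS' hd)).2.2 p hp' (dvd_of_mem_normalizedFactors hp)⟩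
        have : normalizedFactors d = normalizedFactors e := by
          ext p
          by_cases hp : p ∈ primeFactors r
          · exact congrFun (hc' d hd e he) ⟨p, hp⟩
          · rw [Multiset.count_eq_zero_of_notMem fun h => hp (hsub d hd p h),
              Multiset.count_eq_zero_of_notMem fun h => hp (hsub e he p h)]
        exact (associated_iff_normalizedFactors_eq_normalizedFactors (hS d (hS' hd)).1
          (hS e (hS' he)).1).2 this
    have e1 : (B ^ n) ^ (δ / n) = B ^ δ := by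
      rw [← Real.rpow_natCast, ← Real.rpow_mul hB0.le]; congr 1; field_simp
    have e2 : ((2 * K + 1 : ℝ)) ^ n ≤ C₃ ^ n * B ^ δ := by
      refine (pow_le_pow_left₀ (by positivity) hK2 n).trans (le_of_eq ?_)
      rw [mul_pow, ← Real.rpow_natCast B n, ← Real.rpow_mul hB0.le, ← Real.rpow_natCast (B ^ _) n,
        ← Real.rpow_mul hB0.le]
      congr 2; field_simp
    have e3 : q ^ (primeFactors r).card ≤ C₁ * B ^ δ :=
      (h₁ r hr).trans (mul_le_mul_of_nonneg_left
        (Real.rpow_le_rpow (E.N_nonneg r) hrB hδ0.le) (by linarith))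
    have e4 : B ^ ε = B ^ δ * B ^ δ * B ^ δ := by
      rw [← Real.rpow_add hB0, ← Real.rpow_add hB0]; congr 1; rw [hδ]; ring
    rw [e1] at key
    have hb : 0 < B ^ δ := by positivity
    calc (S.card : ℝ) ≤ _ := key
      _ ≤ (B ^ δ * (C₁ * B ^ δ)) * ((C₃ ^ n * B ^ δ) * (E.c * 2 ^ n)) := by gcongr
      _ = 1 * (C₁ * (C₃ ^ n * (E.c * 2 ^ n))) * B ^ ε := by rw [e4]; ring
      _ ≤ _ := by gcongr
  · intro r hr hrB
    refine (h₂ r hr).trans ?_
    have : E.N r ^ ε ≤ B ^ ε := Real.rpow_le_rpow (E.N_nonneg r) hrB hε.le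
    calc C₂ * E.N r ^ ε ≤ C₂ * 1 * B ^ ε := by rw [mul_one]; gcongr
      _ ≤ _ := by gcongr

end Emb

end Pool.Agent.MP_2a5a28_nt
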