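import Pool.Agent.MP_2a5a28_nt.Small

/-! Counting ratios `Y / Y'` with `p Y ^ g ≡ q Y' ^ g` modulo `m`. -/

namespace Pool.Agent.MP_2a5a28_nt

open Finset UniqueFactorizationMonoid

set_option linter.unusedSectionVars false

theorem exists_cells {α : Type*} (S : Finset α) (ρ : α → ℝ) (δ : ℝ) (L : ℕ) (hL : 1 ≤ L)
    (hρ : ∀ x ∈ S, 0 < ρ x) (h : ∀ x ∈ S, ∀ y ∈ S, |ρ x - ρ y| ≤ δ * ρ y) :
    ∃ f : α → ℕ, (∀ x ∈ S, f x ∈ Finset.range (L + 1)) ∧
      ∀ x ∈ S, ∀ y ∈ S, f x = f y → L * |ρ x - ρ y| ≤ δ * ρ y := by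
  rcases S.eq_empty_or_nonempty with rfl | hne
  · exact ⟨fun _ => 0, by simp, by simp⟩
  obtain ⟨x₀, hx₀, hmin⟩ := S.exists_min_image ρ hne
  have hμ := hρ x₀ hx₀
  have hδ : 0 ≤ δ := by
    have := h x₀ hx₀ x₀ hx₀
    simp only [sub_self, abs_zero] at this
    by_contra hh; push Not at hh; nlinarith
  rcases hδ.lt_or_eq with hδ | hδ
  swap
  · refine ⟨fun _ => 0, by simp, fun x hx y hy _ => ?_⟩
    have := h x hx y hy
    rw [← hδ, zero_mul] at this ⊢
    have h0 : |ρ x - ρ y| = 0 := le_antisymm this (abs_nonneg _)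
    rw [h0]; simp
  have hL' : (1 : ℝ) ≤ L := by exact_mod_cast hL
  have hd : 0 < δ * ρ x₀ := by positivity
  refine ⟨fun x => ⌊L * (ρ x - ρ x₀) / (δ * ρ x₀)⌋₊, fun x hx => ?_, fun x hx y hy hxy => ?_⟩
  · rw [Finset.mem_range, Nat.lt_succ_iff]
    refine Nat.floor_le_of_le ?_
    rw [div_le_iff₀ hd]
    exact mul_le_mul_of_nonneg_left ((le_abs_self _).trans (h x hx x₀ hx₀)) (by linarith)
  · have n1 : 0 ≤ L * (ρ x - ρ x₀) / (δ * ρ x₀) := by
      have := hmin x hx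
      have : 0 ≤ ρ x - ρ x₀ := by linarith
      positivity
    have n2 : 0 ≤ L * (ρ y - ρ x₀) / (δ * ρ x₀) := by
      have := hmin y hy
      have : 0 ≤ ρ y - ρ x₀ := by linarith
      positivity
    have a1 := Nat.floor_le n1
    have a2 := Nat.lt_floor_add_one (L * (ρ x - ρ x₀) / (δ * ρ x₀))
    have a3 := Nat.floor_le n2
    have a4 := Nat.lt_floor_add_one (L * (ρ y - ρ x₀) / (δ * ρ x₀))
    have hxy' : (⌊L * (ρ x - ρ x₀) / (δ * ρ x₀)⌋₊ : ℝ) = ⌊L * (ρ y - ρ x₀) / (δ * ρ x₀)⌋₊ := by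
      exact_mod_cast hxy
    have b1 : |L * (ρ x - ρ x₀) / (δ * ρ x₀) - L * (ρ y - ρ x₀) / (δ * ρ x₀)| ≤ 1 := by
      rw [abs_le]; constructor <;> linarith
    have b2 : L * (ρ x - ρ x₀) / (δ * ρ x₀) - L * (ρ y - ρ x₀) / (δ * ρ x₀)
        = L * (ρ x - ρ y) / (δ * ρ x₀) := by ring
    rw [b2, abs_div, abs_mul, abs_of_pos hd, abs_of_nonneg (by linarith : (0 : ℝ) ≤ L),
      div_le_one hd] at b1
    exact b1.trans (mul_le_mul_of_nonneg_left (hmin y hy) hδ.le)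

theorem abs_sub_mul_pow_le {a b : ℝ} (ha : 0 ≤ a) (hb : 0 ≤ b) (g : ℕ) :
    |a - b| * b ^ g ≤ |a ^ (g + 1) - b ^ (g + 1)| := by
  rcases le_total a b with h | h
  · have h1 : a ^ g ≤ b ^ g := pow_le_pow_left₀ ha h g
    have h2 : a ^ (g + 1) ≤ b ^ (g + 1) := pow_le_pow_left₀ ha h _
    rw [abs_sub_comm a, abs_sub_comm (a ^ _), abs_of_nonneg (by linarith),
      abs_of_nonneg (by linarith), pow_succ, pow_succ]
    nlinarith
  · have h1 : b ^ g ≤ a ^ g := pow_le_pow_left₀ hb h g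
    have h2 : b ^ (g + 1) ≤ a ^ (g + 1) := pow_le_pow_left₀ hb h _
    rw [abs_of_nonneg (by linarith), abs_of_nonneg (by linarith), pow_succ, pow_succ]
    nlinarith

theorem exists_grid (n : ℕ) (hn : 0 < n) (Q : ℝ) (hQ : 0 ≤ Q) :
    ∃ L : ℕ, 1 ≤ L ∧ Q < (L : ℝ) ^ n ∧ ((L + 1 : ℝ)) ^ n ≤ 3 ^ n * (1 + Q) := by
  classical
  have hex : ∃ L : ℕ, Q < (L : ℝ) ^ n := by
    obtain ⟨L, hL⟩ := exists_nat_gt Q
    refine ⟨L + 1, hL.trans_le ?_⟩
    push_cast
    exact (by linarith : (L : ℝ) ≤ L + 1).trans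
      (le_self_pow₀ (by have := Nat.cast_nonneg (α := ℝ) L; linarith) hn.ne')
  have h1 := Nat.find_spec hex
  have h0 : Nat.find hex ≠ 0 := by
    intro h
    rw [h, Nat.cast_zero, zero_pow hn.ne'] at h1
    linarith
  refine ⟨Nat.find hex, Nat.one_le_iff_ne_zero.2 h0, h1, ?_⟩
  obtain ⟨k, hk⟩ := Nat.exists_eq_succ_of_ne_zero h0
  have h2 := Nat.find_min hex (m := k) (by omega)
  push Not at h2
  rw [hk]
  rcases Nat.eq_zero_or_pos k with rfl | hk0
  · calc (((0 + 1 : ℕ) : ℝ) + 1) ^ n ≤ 3 ^ n := pow_le_pow_left₀ (by positivity) (by norm_num) n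
      _ ≤ 3 ^ n * (1 + Q) := le_mul_of_one_le_right (by positivity) (by linarith)
  · have hk1 : (1 : ℝ) ≤ k := by exact_mod_cast hk0
    calc (((k + 1 : ℕ) : ℝ) + 1) ^ n ≤ (3 * k) ^ n :=
          pow_le_pow_left₀ (by positivity) (by push_cast; linarith) n
      _ = 3 ^ n * k ^ n := mul_pow _ _ _
      _ ≤ 3 ^ n * (1 + Q) := mul_le_mul_of_nonneg_left (by linarith) (by positivity)

variable {R : Type*} [CommRing R] [IsDomain R] [IsPrincipalIdealRing R]

theorem dvd_mul_sub (g : ℕ) (hg1 : 1 ≤ g) (hg4 : g ≤ 4) (m A B : R) (hm : m ≠ 0)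
    (hB : IsCoprime m B) (h1 : m ∣ A ^ g - B ^ g) (h2 : (144 : R) ∣ A - B)
    (h3 : ∀ π, Prime π → π ∣ m → π ∣ A - B) : m ∣ g * (A - B) := by
  obtain ⟨t, ht⟩ := h2
  have hA : A = B + 144 * t := by linear_combination ht
  have : ∃ w, A ^ g - B ^ g = (g * (A - B)) * (B ^ (g - 1) + 6 * t * w) := by
    subst hA
    interval_cases g
    · exact ⟨0, by simp⟩
    · exact ⟨12, by push_cast; ring⟩
    · exact ⟨24 * B + 1152 * t, by push_cast; ring⟩
    · exact ⟨36 * B ^ 2 + 3456 * B * t + 124416 * t ^ 2, by push_cast; ring⟩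
  obtain ⟨w, hw⟩ := this
  rw [hw] at h1
  refine IsCoprime.dvd_of_dvd_mul_right ?_ h1
  refine isCoprime_of_prime_dvd (fun h => hm h.1) fun π hπ hπm hπS => ?_
  have h4 := h3 π hπ hπm
  have h5 : π ∣ 6 * t := by
    refine hπ.dvd_of_dvd_pow (n := 4) (h4.trans ⟨9 * t ^ 3, ?_⟩)
    rw [ht]; ring
  have h6 : π ∣ B ^ (g - 1) := by
    have := dvd_sub hπS (h5.mul_right w)
    simpa using this
  exact hπ.not_isUnit (hB.isUnit_of_dvd' hπm (hπ.dvd_of_dvd_pow h6))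

theorem root_classes {α : Type*} (g : ℕ) (hg1 : 1 ≤ g) (hg4 : g ≤ 4) (m p q : R)
    (hp : IsCoprime m p) (Y Y' : α → R) (k : ℝ) (hk : 0 ≤ k) (P : Finset R)
    (hP : ∀ π ∈ P, Prime π ∧ π ∣ m) :
    ∀ S : Finset α, (∀ x ∈ S, IsCoprime m (Y' x)) → (∀ x ∈ S, m ∣ p * Y x ^ g - q * Y' x ^ g) →
      (∀ S' ⊆ S, (∀ π ∈ P, ∀ x ∈ S', ∀ y ∈ S', π ∣ Y x * Y' y - Y' x * Y y) → (S'.card : ℝ) ≤ k) →
      (S.card : ℝ) ≤ 4 ^ P.card * k := by
  classical
  induction P using Finset.induction_on with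
  | empty => intro S _ _ h; simpa using h S subset_rfl (by simp)
  | insert π P hπP ih =>
    intro S hY' hdvd h
    obtain ⟨hπ, hπm⟩ := hP π (Finset.mem_insert_self _ _)
    rw [Finset.card_insert_of_notMem hπP, pow_succ', mul_assoc]
    have hmax : (Ideal.span {π}).IsMaximal :=
      PrincipalIdealRing.isMaximal_of_irreducible hπ.irreducible
    let _ : Field (R ⧸ Ideal.span {π}) := Ideal.Quotient.field _
    set φ := Ideal.Quotient.mk (Ideal.span {π}) with hφ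
    have hker : ∀ a, φ a = 0 ↔ π ∣ a := fun a => by
      rw [hφ, Ideal.Quotient.eq_zero_iff_mem, Ideal.mem_span_singleton]
    have hne : ∀ a, IsCoprime m a → φ a ≠ 0 := fun a ha h0 =>
      hπ.not_isUnit (ha.isUnit_of_dvd' hπm ((hker a).1 h0))
    refine card_le_of_fibers S (fun x => φ (Y x) / φ (Y' x)) 4 _ (by positivity) ?_ ?_
    · have : S.image (fun x => φ (Y x) / φ (Y' x)) ⊆
          (Polynomial.nthRoots g (φ q / φ p)).toFinset := by
        intro t ht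
        obtain ⟨x, hx, rfl⟩ := Finset.mem_image.1 ht
        rw [Multiset.mem_toFinset, Polynomial.mem_nthRoots (by omega), div_pow,
          div_eq_div_iff (pow_ne_zero _ (hne _ (hY' x hx))) (hne _ hp)]
        have := (hker _).2 (hπm.trans (hdvd x hx))
        rw [map_sub, map_mul, map_mul, map_pow, map_pow] at this
        linear_combination this
      have h1 := (Finset.card_le_card this).trans
        ((Multiset.toFinset_card_le _).trans ((Polynomial.card_nthRoots _ _).trans hg4))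
      exact_mod_cast h1
    · intro S₁ hS₁ hc
      refine ih (fun π' h' => hP π' (Finset.mem_insert_of_mem h')) S₁
        (fun x hx => hY' x (hS₁ hx)) (fun x hx => hdvd x (hS₁ hx)) fun S' hS' h' => ?_
      refine h S' (hS'.trans hS₁) fun π' hπ' x hx y hy => ?_
      rcases Finset.mem_insert.1 hπ' with rfl | hπ'
      · have := hc x (hS' hx) y (hS' hy)
        rw [div_eq_div_iff (hne _ (hY' x (hS₁ (hS' hx)))) (hne _ (hY' y (hS₁ (hS' hy))))] at this
        rw [← hker, map_sub, map_mul, map_mul]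
        linear_combination this
      · exact h' π' hπ' x hx y hy

variable [NormalizationMonoid R] {V : Type*} [Fintype V]

/-- The constant of the ratio lemma. -/
noncomputable def cR (V : Type*) [Fintype V] : ℝ := 144 ^ 4 * 24 ^ Fintype.card V

theorem one_le_cR (V : Type*) [Fintype V] : 1 ≤ cR V :=
  one_le_mul_of_one_le_of_one_le (by norm_num) (one_le_pow₀ (by norm_num))

theorem ratio_count {α : Type*} {E : Emb R V} {B Δ : ℝ} (hS : Small E B Δ) (g : ℕ) (hg1 : 1 ≤ g)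
    (hg4 : g ≤ 4) (m p q : R) (hm : m ≠ 0) (hmB : E.N m ≤ B) (S : Finset α) (Y Y' : α → R)
    (T T' δ : V → ℝ) (Q k : ℝ) (hk : 0 ≤ k) (hQ0 : 0 ≤ Q) (hp : IsCoprime m p)
    (hY : ∀ x ∈ S, IsCoprime m (Y x)) (hY' : ∀ x ∈ S, IsCoprime m (Y' x))
    (hdvd : ∀ x ∈ S, m ∣ p * Y x ^ g - q * Y' x ^ g) (h0 : ∀ x ∈ S, Y x ≠ 0 ∧ Y' x ≠ 0)
    (hT : ∀ x ∈ S, ∀ ν, |E.σ ν (Y x)| ≤ T ν) (hT' : ∀ x ∈ S, ∀ ν, |E.σ ν (Y' x)| ≤ T' ν)
    (hδ : ∀ x ∈ S, ∀ y ∈ S, ∀ ν, |E.σ ν ((Y x * Y' y) ^ g - (Y' x * Y y) ^ g)| ≤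
      δ ν * |E.σ ν ((Y' x * Y y) ^ g)|)
    (hQ : ∏ ν, T ν * T' ν * δ ν ≤ Q * E.N m)
    (hfib : ∀ S' ⊆ S, (∀ x ∈ S', ∀ y ∈ S', Y x * Y' y = Y' x * Y y) → (S'.card : ℝ) ≤ k) :
    (S.card : ℝ) ≤ cR V * Δ * (1 + Q) * k := by
  classical
  have hn := E.pos_card
  set n := Fintype.card V with hndef
  have hΔ := hS.one_le
  obtain ⟨L, hL1, hL2, hL3⟩ := exists_grid n hn (4 ^ n * Q) (by positivity)
  have hL0 : (0 : ℝ) < L := by exact_mod_cast hL1
  -- cells
  have hcell : ∀ ν, ∃ f : α → ℕ, (∀ x ∈ S, f x ∈ Finset.range (L + 1)) ∧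
      ∀ x ∈ S, ∀ y ∈ S, f x = f y →
        L * |(|E.σ ν (Y x)| / |E.σ ν (Y' x)|) ^ g - (|E.σ ν (Y y)| / |E.σ ν (Y' y)|) ^ g| ≤
          δ ν * (|E.σ ν (Y y)| / |E.σ ν (Y' y)|) ^ g := by
    intro ν
    refine exists_cells S (fun x => (|E.σ ν (Y x)| / |E.σ ν (Y' x)|) ^ g) (δ ν) L hL1 ?_ ?_
    · intro x hx
      exact pow_pos (div_pos (E.abs_pos (h0 x hx).1 ν) (E.abs_pos (h0 x hx).2 ν)) _
    · intro x hx y hy
      have a1 := E.abs_pos (h0 x hx).2 ν
      have a2 := E.abs_pos (h0 y hy).2 ν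
      have h1 := hδ x hx y hy ν
      rw [map_sub] at h1
      have h2 := (abs_abs_sub_abs_le_abs_sub _ _).trans h1
      simp only [map_pow, map_mul, abs_pow, abs_mul] at h2
      have e : (|E.σ ν (Y x)| / |E.σ ν (Y' x)|) ^ g - (|E.σ ν (Y y)| / |E.σ ν (Y' y)|) ^ g
          = ((|E.σ ν (Y x)| * |E.σ ν (Y' y)|) ^ g - (|E.σ ν (Y' x)| * |E.σ ν (Y y)|) ^ g) /
            (|E.σ ν (Y' x)| * |E.σ ν (Y' y)|) ^ g := by
        simp only [div_pow, mul_pow]; field_simp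
      rw [e, abs_div, abs_of_pos (by positivity : 0 < (|E.σ ν (Y' x)| * |E.σ ν (Y' y)|) ^ g),
        div_le_iff₀ (by positivity)]
      refine h2.trans (le_of_eq ?_)
      simp only [div_pow, mul_pow]; field_simp
  choose f hf1 hf2 using hcell
  have key : (S.card : ℝ) ≤ 4 ^ (primeFactors m).card * (144 ^ 4 * (2 ^ n * ((L + 1) ^ n * k))) := by
    refine root_classes g hg1 hg4 m p q hp Y Y' _ (by positivity) (primeFactors m)
      (fun π hπ => ⟨Emb.prime_of_mem hπ, dvd_of_mem_normalizedFactors (mem_primeFactors.1 hπ)⟩)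
      S hY' hdvd fun S₁ hS₁ c₁ => ?_
    refine card_le_of_fibers S₁ (fun x => (E.cls (Y x), E.cls (Y' x))) _ _ (by positivity) ?_
      fun S₂ hS₂ c₂ => ?_
    · have := Finset.card_le_univ (S₁.image fun x => (E.cls (Y x), E.cls (Y' x)))
      simp only [Fintype.card_prod, ZMod.card] at this
      exact_mod_cast this
    refine card_le_of_fibers S₂ (fun x ν => decide (0 < E.σ ν (Y x * Y' x))) _ _ (by positivity) ?_
      fun S₃ hS₃ c₃ => ?_
    · have := Finset.card_le_univ (S₂.image fun x ν => decide (0 < E.σ ν (Y x * Y' x)))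
      simp only [Fintype.card_pi, Fintype.card_bool, Finset.prod_const, Finset.card_univ] at this
      exact_mod_cast this
    refine card_le_of_fibers S₃ (fun x ν => f ν x) _ _ hk ?_ fun S₄ hS₄ c₄ => ?_
    · have : S₃.image (fun x ν => f ν x) ⊆ Fintype.piFinset fun _ : V => Finset.range (L + 1) := by
        intro e he
        obtain ⟨x, hx, rfl⟩ := Finset.mem_image.1 he
        exact Fintype.mem_piFinset.2 fun ν => hf1 ν x (hS₁ (hS₂ (hS₃ hx)))
      have h3 := Finset.card_le_card this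
      rw [Fintype.card_piFinset, Finset.prod_const, Finset.card_univ, Finset.card_range] at h3
      exact_mod_cast h3
    have hsub : S₄ ⊆ S := hS₄.trans (hS₃.trans (hS₂.trans hS₁))
    refine hfib S₄ hsub fun x hx y hy => ?_
    by_contra hne
    have hx' := hsub hx
    have hy' := hsub hy
    have hD : Y x * Y' y - Y' x * Y y ≠ 0 := sub_ne_zero.2 hne
    have d1 : m ∣ (Y x * Y' y) ^ g - (Y' x * Y y) ^ g := by
      refine hp.dvd_of_dvd_mul_left ?_
      have := dvd_sub ((hdvd x hx').mul_right (Y' y ^ g)) ((hdvd y hy').mul_right (Y' x ^ g))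
      refine this.trans (dvd_of_eq ?_)
      ring
    have d2 : (144 : R) ∣ Y x * Y' y - Y' x * Y y := by
      have := c₂ x (hS₃ (hS₄ hx)) y (hS₃ (hS₄ hy))
      have e1 := E.cls_dvd _ _ (congrArg Prod.fst this)
      have e2 := E.cls_dvd _ _ (congrArg Prod.snd this)
      have := dvd_sub (e1.mul_right (Y' y)) (e2.mul_right (Y y))
      refine this.trans (dvd_of_eq ?_)
      ring
    have d3 := dvd_mul_sub g hg1 hg4 m _ _ hm ((hY' x hx').mul_right (hY y hy')) d1 d2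
      (fun π hπ hπm => by
        obtain ⟨π', h1, h2⟩ := exists_mem_normalizedFactors_of_dvd hm hπ.irreducible hπm
        exact h2.dvd.trans (c₁ π' (mem_primeFactors.2 h1) x (hS₂ (hS₃ (hS₄ hx))) y
          (hS₂ (hS₃ (hS₄ hy)))))
    have hgN : E.N (g : R) = (g : ℝ) ^ n := by simp [Emb.N, hndef]
    have hg0 : (g : R) ≠ 0 := by
      intro h
      have : E.N (g : R) = 0 := by
        rw [h]
        obtain ⟨ν⟩ : Nonempty V := Fintype.card_pos_iff.1 hn
        exact Finset.prod_eq_zero (Finset.mem_univ ν) (by simp)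
      rw [hgN] at this
      have : (0 : ℝ) < (g : ℝ) ^ n := by positivity
      linarith
    have n1 := E.N_le_of_dvd d3 (mul_ne_zero hg0 hD)
    rw [E.N_mul, hgN] at n1
    have n2 : ∀ ν, L * |E.σ ν (Y x * Y' y - Y' x * Y y)| ≤ T ν * T' ν * δ ν := by
      intro ν
      have a1 := E.abs_pos (h0 x hx').2 ν
      have a2 := E.abs_pos (h0 y hy').2 ν
      have a3 := E.abs_pos (h0 x hx').1 ν
      have a4 := E.abs_pos (h0 y hy').1 ν
      have h1 := hf2 ν x hx' y hy' (congrFun (c₄ x hx y hy) ν)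
      obtain ⟨g', rfl⟩ : ∃ g', g = g' + 1 := ⟨g - 1, by omega⟩
      have h2 := abs_sub_mul_pow_le (div_pos a3 a1).le (div_pos a4 a2).le g'
      have h3 : 0 < (|E.σ ν (Y y)| / |E.σ ν (Y' y)|) ^ g' := by positivity
      have h4 : L * |(|E.σ ν (Y x)| / |E.σ ν (Y' x)|) - (|E.σ ν (Y y)| / |E.σ ν (Y' y)|)| ≤
          δ ν * (|E.σ ν (Y y)| / |E.σ ν (Y' y)|) := by
        refine le_of_mul_le_mul_right ?_ h3
        calc _ = L * (|(|E.σ ν (Y x)| / |E.σ ν (Y' x)|) - (|E.σ ν (Y y)| / |E.σ ν (Y' y)|)| *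
              (|E.σ ν (Y y)| / |E.σ ν (Y' y)|) ^ g') := by ring
          _ ≤ _ := mul_le_mul_of_nonneg_left h2 hL0.le
          _ ≤ _ := h1
          _ = _ := by ring
      have hsgn : 0 < E.σ ν (Y x * Y' y) * E.σ ν (Y' x * Y y) := by
        have s1 := congrFun (c₃ x (hS₄ hx) y (hS₄ hy)) ν
        simp only [decide_eq_decide] at s1
        have z1 := E.ne_zero (mul_ne_zero (h0 x hx').1 (h0 x hx').2) ν
        have z2 := E.ne_zero (mul_ne_zero (h0 y hy').1 (h0 y hy').2) ν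
        have e : E.σ ν (Y x * Y' y) * E.σ ν (Y' x * Y y) =
            E.σ ν (Y x * Y' x) * E.σ ν (Y y * Y' y) := by simp only [map_mul]; ring
        rw [e]
        by_cases hp : 0 < E.σ ν (Y x * Y' x)
        · exact mul_pos hp (s1.1 hp)
        · exact mul_pos_of_neg_of_neg (lt_of_le_of_ne (not_lt.1 hp) z1)
            (lt_of_le_of_ne (not_lt.1 fun h => hp (s1.2 h)) z2)
      have h5 : |E.σ ν (Y x * Y' y - Y' x * Y y)| =
          |(|E.σ ν (Y x * Y' y)| - |E.σ ν (Y' x * Y y)|)| := by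
        rw [map_sub]
        rcases pos_and_pos_or_neg_and_neg_of_mul_pos hsgn with ⟨u1, u2⟩ | ⟨u1, u2⟩
        · rw [abs_of_pos u1, abs_of_pos u2]
        · rw [abs_of_neg u1, abs_of_neg u2, ← abs_neg]; congr 1; ring
      have h6 : |E.σ ν (Y x * Y' y)| - |E.σ ν (Y' x * Y y)| =
          ((|E.σ ν (Y x)| / |E.σ ν (Y' x)|) - (|E.σ ν (Y y)| / |E.σ ν (Y' y)|)) *
            (|E.σ ν (Y' x)| * |E.σ ν (Y' y)|) := by
        simp only [map_mul, abs_mul]; field_simp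
      have hδ0 : 0 ≤ δ ν := by
        by_contra hh
        push Not at hh
        have := mul_neg_of_neg_of_pos hh (div_pos a4 a2)
        have : 0 ≤ (L : ℝ) *
          |(|E.σ ν (Y x)| / |E.σ ν (Y' x)|) - (|E.σ ν (Y y)| / |E.σ ν (Y' y)|)| := by positivity
        linarith
      rw [h5, h6, abs_mul, abs_of_pos (mul_pos a1 a2), ← mul_assoc]
      refine (mul_le_mul_of_nonneg_right h4 (mul_pos a1 a2).le).trans ?_
      have e : δ ν * (|E.σ ν (Y y)| / |E.σ ν (Y' y)|) * (|E.σ ν (Y' x)| * |E.σ ν (Y' y)|)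
          = |E.σ ν (Y y)| * |E.σ ν (Y' x)| * δ ν := by field_simp
      rw [e]
      exact mul_le_mul_of_nonneg_right
        (mul_le_mul (hT y hy' ν) (hT' x hx' ν) a1.le (a4.le.trans (hT y hy' ν))) hδ0
    have n3 : (L : ℝ) ^ n * E.N (Y x * Y' y - Y' x * Y y) ≤ Q * E.N m := by
      refine le_trans ?_ hQ
      rw [Emb.N, hndef, ← Finset.card_univ, ← Finset.prod_const, ← Finset.prod_mul_distrib]
      exact Finset.prod_le_prod (fun _ _ => by positivity) fun ν _ => n2 ν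
    have n4 : (g : ℝ) ^ n ≤ 4 ^ n := pow_le_pow_left₀ (by positivity) (by exact_mod_cast hg4) n
    have n5 := E.N_pos hD
    have n6 := E.N_pos hm
    have n7 : E.N m ≤ 4 ^ n * E.N (Y x * Y' y - Y' x * Y y) :=
      n1.trans (mul_le_mul_of_nonneg_right n4 n5.le)
    have n8 : Q * E.N m ≤ (4 ^ n * Q) * E.N (Y x * Y' y - Y' x * Y y) := by
      calc _ ≤ Q * (4 ^ n * E.N (Y x * Y' y - Y' x * Y y)) := mul_le_mul_of_nonneg_left n7 hQ0
        _ = _ := by ring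
    have := mul_lt_mul_of_pos_right hL2 n5
    linarith
  have h4 : (1 : ℝ) ≤ 4 ^ n := one_le_pow₀ (by norm_num)
  have h5 : (L + 1 : ℝ) ^ n ≤ 3 ^ n * (4 ^ n * (1 + Q)) := by
    refine hL3.trans (mul_le_mul_of_nonneg_left ?_ (by positivity))
    linarith
  calc (S.card : ℝ) ≤ _ := key
    _ ≤ Δ * (144 ^ 4 * (2 ^ n * ((3 ^ n * (4 ^ n * (1 + Q))) * k))) := by
        gcongr
        exact hS.omega m hm hmB
    _ = cR V * Δ * (1 + Q) * k := by
        rw [cR, show (24 : ℝ) = 2 * 3 * 4 by norm_num, mul_pow, mul_pow]; ring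

end Pool.Agent.MP_2a5a28_nt
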