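import Pool.Agent.MP_2a5a28_nt.Ratio

/-! Counting solutions of `p x ^ i - q x' ^ i = h` in a box. -/

namespace Pool.Agent.MP_2a5a28_nt

open Finset UniqueFactorizationMonoid

set_option linter.unusedSectionVars false

theorem cross_le {P Q P' Q' δ κ : ℝ} (h1 : |P - Q| ≤ δ * |Q|) (h2 : |P' - Q'| ≤ δ * |Q'|)
    (h3 : |Q'| ≤ κ * |P'|) (hδ : 0 ≤ δ) : |P * Q' - Q * P'| ≤ 2 * δ * κ * |Q * P'| := by
  have e : P * Q' - Q * P' = (P - Q) * Q' - Q * (P' - Q') := by ring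
  rw [e]
  refine (abs_sub _ _).trans ?_
  rw [abs_mul, abs_mul, abs_mul]
  have a1 := abs_nonneg Q
  have a2 := abs_nonneg Q'
  have b1 := mul_le_mul_of_nonneg_right h1 a2
  have b2 := mul_le_mul_of_nonneg_left h2 a1
  have b3 := mul_le_mul_of_nonneg_left h3 (mul_nonneg hδ a1)
  nlinarith

variable {R : Type*} [CommRing R] [IsDomain R] [IsPrincipalIdealRing R]

theorem exists_smooth_part (h x : R) (hx : x ≠ 0) :
    ∃ s x₁, x = s * x₁ ∧ IsCoprime h x₁ ∧ ∀ π, Prime π → π ∣ s → π ∣ h := by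
  induction x using UniqueFactorizationMonoid.induction_on_prime with
  | h₁ => exact (hx rfl).elim
  | h₂ x hu =>
    refine ⟨1, x, (one_mul x).symm, ?_, fun π hπ h1 => (hπ.not_isUnit (isUnit_of_dvd_one h1)).elim⟩
    obtain ⟨u, rfl⟩ := hu
    exact ⟨0, (u⁻¹ : Rˣ), by simp⟩
  | h₃ a p ha hp ih =>
    obtain ⟨s, x₁, rfl, h1, h2⟩ := ih ha
    by_cases hph : p ∣ h
    · refine ⟨p * s, x₁, by ring, h1, fun π hπ h3 => ?_⟩
      rcases hπ.dvd_or_dvd h3 with h4 | h4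
      · exact h4.trans hph
      · exact h2 π hπ h4
    · exact ⟨s, p * x₁, by ring,
        IsCoprime.mul_right (hp.irreducible.coprime_iff_not_dvd.2 hph).symm h1, h2⟩

theorem exists_coprime_quot (a b : R) (ha : a ≠ 0) :
    ∃ d a' b', a = d * a' ∧ b = d * b' ∧ IsCoprime a' b' := by
  obtain ⟨a', b', d, h1, h2, h3⟩ := UniqueFactorizationMonoid.exists_reduced_factors a ha b
  exact ⟨d, a', b', h2.symm, h3.symm, h1.isCoprime⟩

theorem card_image_of_pow_eq {α : Type*} [DecidableEq R] (S : Finset α) (x : α → R) (i : ℕ)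
    (hi : 1 ≤ i) (hi4 : i ≤ 4) (h : ∀ a ∈ S, ∀ b ∈ S, x a ^ i = x b ^ i) :
    ((S.image x).card : ℝ) ≤ 4 := by
  rcases S.eq_empty_or_nonempty with rfl | ⟨b, hb⟩
  · simp
  have : S.image x ⊆ (Polynomial.nthRoots i (x b ^ i)).toFinset := by
    intro t ht
    obtain ⟨a, ha, rfl⟩ := Finset.mem_image.1 ht
    rw [Multiset.mem_toFinset, Polynomial.mem_nthRoots (by omega)]
    exact h a ha b hb
  have h1 := (Finset.card_le_card this).trans
    ((Multiset.toFinset_card_le _).trans ((Polynomial.card_nthRoots _ _).trans hi4))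
  exact_mod_cast h1

variable [NormalizationMonoid R] {V : Type*} [Fintype V]

theorem exists_smooth_bal (E : Emb R V) (h x : R) (hx : x ≠ 0) (β : ℝ) (hβ : ∀ ν, |E.σ ν x| ≤ β) :
    ∃ s x₁, x = s * x₁ ∧ IsCoprime h x₁ ∧ (∀ π, Prime π → π ∣ s → π ∣ h) ∧
      ∀ ν, |E.σ ν s| ≤ E.c * β := by
  obtain ⟨s, x₁, h1, h2, h3⟩ := exists_smooth_part h x hx
  have hs : s ≠ 0 := fun h0 => hx (by rw [h1, h0, zero_mul])
  have hβ0 : 0 ≤ β := le_trans zero_le_one (E.one_le_box hx hβ)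
  obtain ⟨u, hu⟩ := E.exists_bal hs hβ0
    ((E.N_le_of_dvd ⟨x₁, h1⟩ hx).trans (E.N_le_pow hβ))
  refine ⟨u * s, (u⁻¹ : Rˣ) * x₁, ?_, ?_, fun π hπ h4 => h3 π hπ ?_, hu⟩
  · rw [h1]
    calc s * x₁ = ((u : R) * (u⁻¹ : Rˣ)) * (s * x₁) := by simp
      _ = _ := by ring
  · exact (isCoprime_mul_unit_left_right (u⁻¹).isUnit _ _).2 h2
  · exact (Units.dvd_mul_left).1 h4

/-- The constant of the Thue lemma. -/
noncomputable def cT (V : Type*) [Fintype V] (c : ℝ) : ℝ :=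
  16 * cR V * (1 + (2 * c ^ 12) ^ Fintype.card V)

theorem thue_count {α : Type*} {E : Emb R V} {B Δ : ℝ} (hS : Small E B Δ) (i : ℕ) (hi2 : 2 ≤ i)
    (hi4 : i ≤ 4) (p q h : R) (hq : q ≠ 0) (hh : h ≠ 0) (hhB : E.N h ≤ B) (S : Finset α)
    (x x' : α → R) (T : V → ℝ) (c β k : ℝ) (hc : 1 ≤ c) (hk : 0 ≤ k) (hβ : E.c * β ≤ B)
    (heq : ∀ a ∈ S, p * x a ^ i - q * x' a ^ i = h) (h0 : ∀ a ∈ S, x a ≠ 0 ∧ x' a ≠ 0)
    (hT : ∀ a ∈ S, ∀ ν, T ν ≤ c * |E.σ ν (x a)| ∧ |E.σ ν (x a)| ≤ T ν)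
    (hT' : ∀ a ∈ S, ∀ ν, T ν ≤ c * |E.σ ν (x' a)| ∧ |E.σ ν (x' a)| ≤ T ν)
    (hTβ : ∀ ν, T ν ≤ β)
    (hcmp : ∀ a ∈ S, ∀ ν, |E.σ ν (p * x a ^ i)| ≤ c ^ 2 * |E.σ ν (q * x' a ^ i)| ∧
      |E.σ ν (q * x' a ^ i)| ≤ c ^ 2 * |E.σ ν (p * x a ^ i)|)
    (hfib : ∀ S' ⊆ S, (∀ a ∈ S', ∀ b ∈ S', x a = x b ∧ x' a = x' b) → (S'.card : ℝ) ≤ k) :
    (S.card : ℝ) ≤ cT V c * Δ ^ 3 * k := by
  classical
  have hn := E.pos_card
  set n := Fintype.card V with hndef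
  have hΔ := hS.one_le
  have hcR := one_le_cR V
  have hsm : ∀ (y : α → R), (∀ a ∈ S, y a ≠ 0 ∧ ∀ ν, |E.σ ν (y a)| ≤ T ν) →
      ∃ s y₁ : α → R, ∀ a ∈ S, y a = s a * y₁ a ∧ IsCoprime h (y₁ a) ∧
        (∀ π, Prime π → π ∣ s a → π ∣ h) ∧ ∀ ν, |E.σ ν (s a)| ≤ E.c * β := by
    intro y hy
    have : ∀ a, ∃ s y₁, a ∈ S → (y a = s * y₁ ∧ IsCoprime h y₁ ∧
        (∀ π, Prime π → π ∣ s → π ∣ h) ∧ ∀ ν, |E.σ ν s| ≤ E.c * β) := by
      intro a
      by_cases ha : a ∈ S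
      · obtain ⟨s, y₁, hs⟩ := exists_smooth_bal E h (y a) (hy a ha).1 β
          fun ν => ((hy a ha).2 ν).trans (hTβ ν)
        exact ⟨s, y₁, fun _ => hs⟩
      · exact ⟨0, 0, fun h => (ha h).elim⟩
    choose s y₁ hs using this
    exact ⟨s, y₁, hs⟩
  obtain ⟨s, x₁, hs⟩ := hsm x fun a ha => ⟨(h0 a ha).1, fun ν => (hT a ha ν).2⟩
  obtain ⟨s', x₁', hs'⟩ := hsm x' fun a ha => ⟨(h0 a ha).2, fun ν => (hT' a ha ν).2⟩
  have hs0 : ∀ a ∈ S, s a ≠ 0 ∧ x₁ a ≠ 0 := fun a ha =>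
    mul_ne_zero_iff.1 ((hs a ha).1 ▸ (h0 a ha).1)
  have hs0' : ∀ a ∈ S, s' a ≠ 0 ∧ x₁' a ≠ 0 := fun a ha =>
    mul_ne_zero_iff.1 ((hs' a ha).1 ▸ (h0 a ha).2)
  have key : (S.card : ℝ) ≤ Δ * (Δ * (cR V * Δ * (1 + (2 * c ^ 12) ^ n) * (4 * (4 * k)))) := by
    refine card_le_of_fibers S s _ _ (by positivity) ?_ fun S₁ hS₁ c₁ => ?_
    · refine hS.smooth h hh hhB _ fun d hd => ?_
      obtain ⟨a, ha, rfl⟩ := Finset.mem_image.1 hd
      exact ⟨(hs0 a ha).1, fun ν => ((hs a ha).2.2.2 ν).trans hβ, (hs a ha).2.2.1⟩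
    refine card_le_of_fibers S₁ s' _ _ (by positivity) ?_ fun S₂ hS₂ c₂ => ?_
    · refine hS.smooth h hh hhB _ fun d hd => ?_
      obtain ⟨a, ha, rfl⟩ := Finset.mem_image.1 hd
      have ha := hS₁ ha
      exact ⟨(hs0' a ha).1, fun ν => ((hs' a ha).2.2.2 ν).trans hβ, (hs' a ha).2.2.1⟩
    refine card_le_of_nonempty _ _ (by positivity) fun a₀ ha₀ => ?_
    have hsub : S₂ ⊆ S := hS₂.trans hS₁
    have ha₀' := hsub ha₀
    set t := s a₀ with ht
    set t' := s' a₀ with ht'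
    have ht0 : t ≠ 0 := (hs0 a₀ ha₀').1
    have ht0' : t' ≠ 0 := (hs0' a₀ ha₀').1
    have hx : ∀ a ∈ S₂, x a = t * x₁ a := fun a ha => by
      rw [(hs a (hsub ha)).1, c₁ a (hS₂ ha) a₀ (hS₂ ha₀)]
    have hx' : ∀ a ∈ S₂, x' a = t' * x₁' a := fun a ha => by
      rw [(hs' a (hsub ha)).1, c₂ a ha a₀ ha₀]
    have hp : p ≠ 0 := by
      intro hp
      obtain ⟨ν⟩ : Nonempty V := Fintype.card_pos_iff.1 hn
      have h1 := (hcmp a₀ ha₀' ν).2
      rw [hp] at h1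
      simp only [zero_mul, map_zero, abs_zero, mul_zero] at h1
      have := E.abs_pos (mul_ne_zero hq (pow_ne_zero i (h0 a₀ ha₀').2)) ν
      linarith
    obtain ⟨d, p₂, q₂, e1, e2, hco⟩ := exists_coprime_quot (p * t ^ i) (q * t' ^ i)
      (mul_ne_zero hp (pow_ne_zero _ ht0))
    have hd : d ≠ 0 := fun h0 => mul_ne_zero hp (pow_ne_zero i ht0) (by rw [e1, h0, zero_mul])
    have hdiv : ∀ a ∈ S₂, h = d * (p₂ * x₁ a ^ i - q₂ * x₁' a ^ i) := fun a ha => by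
      rw [← heq a (hsub ha), hx a ha, hx' a ha, mul_pow, mul_pow]
      linear_combination x₁ a ^ i * e1 - x₁' a ^ i * e2
    set h₂ := p₂ * x₁ a₀ ^ i - q₂ * x₁' a₀ ^ i with hh₂
    have hh₂' : h = d * h₂ := hdiv a₀ ha₀
    have hh₂0 : h₂ ≠ 0 := fun h0 => hh (by rw [hh₂', h0, mul_zero])
    have hdvd : h₂ ∣ h := ⟨d, by rw [hh₂', mul_comm]⟩
    have hTpos : ∀ ν, 0 < T ν := fun ν =>
      (E.abs_pos (h0 a₀ ha₀').1 ν).trans_le (hT a₀ ha₀' ν).2
    refine ratio_count hS i (by omega) hi4 h₂ p₂ q₂ hh₂0 ((E.N_le_of_dvd hdvd hh).trans hhB) S₂ x₁ x₁'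
      (fun ν => T ν / |E.σ ν t|) (fun ν => T ν / |E.σ ν t'|)
      (fun ν => 2 * (|E.σ ν h| * c ^ i / (|E.σ ν q| * T ν ^ i)) * c ^ 2) _ _ (by positivity)
      (by positivity) ?_ (fun a ha => (hs a (hsub ha)).2.1.of_isCoprime_of_dvd_left hdvd)
      (fun a ha => (hs' a (hsub ha)).2.1.of_isCoprime_of_dvd_left hdvd) ?_
      (fun a ha => ⟨(hs0 a (hsub ha)).2, (hs0' a (hsub ha)).2⟩) ?_ ?_ ?_ ?_ ?_
    · refine isCoprime_of_prime_dvd (fun h => hh₂0 h.1) fun π hπ h1 h2 => ?_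
      have h3 : π ∣ q₂ * x₁' a₀ ^ i := by
        have := dvd_sub (h2.mul_right (x₁ a₀ ^ i)) h1
        rw [hh₂] at this
        simpa using this
      rcases hπ.dvd_or_dvd h3 with h4 | h4
      · exact hπ.not_isUnit (hco.isUnit_of_dvd' h2 h4)
      · exact hπ.not_isUnit ((hs' a₀ ha₀').2.1.isUnit_of_dvd' (h1.trans hdvd)
          (hπ.dvd_of_dvd_pow h4))
    · intro a ha
      refine dvd_of_eq (mul_left_cancel₀ hd ?_)
      rw [← hh₂', ← hdiv a ha]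
    · intro a ha ν
      have h1 := (hT a (hsub ha) ν).2
      rw [hx a ha, map_mul, abs_mul] at h1
      rw [le_div_iff₀ (E.abs_pos ht0 ν)]; linarith
    · intro a ha ν
      have h1 := (hT' a (hsub ha) ν).2
      rw [hx' a ha, map_mul, abs_mul] at h1
      rw [le_div_iff₀ (E.abs_pos ht0' ν)]; linarith
    · intro a ha b hb ν
      have hq' := E.abs_pos hq ν
      have hT0 := hTpos ν
      have hδ : ∀ a ∈ S₂, |E.σ ν (p * x a ^ i) - E.σ ν (q * x' a ^ i)| ≤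
          (|E.σ ν h| * c ^ i / (|E.σ ν q| * T ν ^ i)) * |E.σ ν (q * x' a ^ i)| := by
        intro a ha
        rw [← map_sub, heq a (hsub ha), div_mul_eq_mul_div, le_div_iff₀ (by positivity), mul_assoc]
        refine mul_le_mul_of_nonneg_left ?_ (abs_nonneg _)
        rw [map_mul, map_pow, abs_mul, abs_pow]
        have := pow_le_pow_left₀ hT0.le (hT' a (hsub ha) ν).1 i
        rw [mul_pow] at this
        nlinarith
      have h1 := cross_le (hδ a ha) (hδ b hb) (hcmp b (hsub hb) ν).2 (by positivity)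
      have e3 : E.σ ν (p * x a ^ i) * E.σ ν (q * x' b ^ i) -
          E.σ ν (q * x' a ^ i) * E.σ ν (p * x b ^ i) = E.σ ν (p * t ^ i * (q * t' ^ i)) *
            E.σ ν ((x₁ a * x₁' b) ^ i - (x₁' a * x₁ b) ^ i) := by
        simp only [← map_mul, ← map_sub]
        congr 1
        rw [hx a ha, hx b hb, hx' a ha, hx' b hb]; ring
      have e4 : E.σ ν (q * x' a ^ i) * E.σ ν (p * x b ^ i) = E.σ ν (p * t ^ i * (q * t' ^ i)) *
            E.σ ν ((x₁' a * x₁ b) ^ i) := by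
        simp only [← map_mul]
        congr 1
        rw [hx b hb, hx' a ha]; ring
      rw [e3, e4, abs_mul, abs_mul] at h1
      have hpos := E.abs_pos (mul_ne_zero (mul_ne_zero hp (pow_ne_zero i ht0))
        (mul_ne_zero hq (pow_ne_zero i ht0'))) ν
      refine le_of_mul_le_mul_left ?_ hpos
      linarith
    · set w := ∏ ν, T ν with hw
      have hw0 : 0 < w := Finset.prod_pos fun ν _ => hTpos ν
      have nt := E.N_pos ht0
      have nt' := E.N_pos ht0'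
      have nq := E.N_pos hq
      have nh := E.N_pos hh₂0
      have e3 : ∏ ν, T ν / |E.σ ν t| * (T ν / |E.σ ν t'|) *
          (2 * (|E.σ ν h| * c ^ i / (|E.σ ν q| * T ν ^ i)) * c ^ 2) =
          w / E.N t * (w / E.N t') * (2 ^ n * (E.N h * (c ^ i) ^ n / (E.N q * w ^ i)) *
            (c ^ 2) ^ n) := by
        simp only [Finset.prod_mul_distrib, Finset.prod_div_distrib, Finset.prod_const,
          Finset.card_univ, Finset.prod_pow, Emb.N, hw, hndef]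
      have w1 : E.N t ≤ w := (E.N_le_of_dvd ⟨_, hx a₀ ha₀⟩ (h0 a₀ ha₀').1).trans
        (E.N_le_of_box fun ν => (hT a₀ ha₀' ν).2)
      have w2 : E.N t' ≤ w := (E.N_le_of_dvd ⟨_, hx' a₀ ha₀⟩ (h0 a₀ ha₀').2).trans
        (E.N_le_of_box fun ν => (hT' a₀ ha₀' ν).2)
      have d1 : E.N d ≤ E.N p * E.N t ^ i := by
        rw [← E.N_pow, ← E.N_mul]
        exact E.N_le_of_dvd ⟨_, e1⟩ (mul_ne_zero hp (pow_ne_zero _ ht0))
      have d2 : E.N d ≤ E.N q * E.N t' ^ i := by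
        rw [← E.N_pow, ← E.N_mul]
        exact E.N_le_of_dvd ⟨_, e2⟩ (mul_ne_zero hq (pow_ne_zero _ ht0'))
      have c6 : c ^ 2 * c ^ i ≤ c ^ 6 := by
        rw [← pow_add]; exact pow_le_pow_right₀ hc (by omega)
      have d3 : E.N p ≤ (c ^ 6) ^ n * E.N q := by
        rw [Emb.N, Emb.N, hndef, ← Finset.card_univ, ← Finset.prod_const, ← Finset.prod_mul_distrib]
        refine Finset.prod_le_prod (fun _ _ => abs_nonneg _) fun ν _ => ?_
        have h1 := (hcmp a₀ ha₀' ν).1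
        simp only [map_mul, map_pow, abs_mul, abs_pow] at h1
        have h2 := pow_le_pow_left₀ (abs_nonneg _)
          ((hT' a₀ ha₀' ν).2.trans (hT a₀ ha₀' ν).1) i
        rw [mul_pow] at h2
        have h3 : 0 < |E.σ ν (x a₀)| ^ i := pow_pos (E.abs_pos (h0 a₀ ha₀').1 ν) i
        refine le_of_mul_le_mul_right ?_ h3
        calc _ ≤ _ := h1
          _ ≤ c ^ 2 * (|E.σ ν q| * (c ^ i * |E.σ ν (x a₀)| ^ i)) := by gcongr
          _ = (c ^ 2 * c ^ i) * |E.σ ν q| * |E.σ ν (x a₀)| ^ i := by ring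
          _ ≤ _ := by gcongr
      obtain ⟨j, rfl⟩ : ∃ j, i = j + 2 := ⟨i - 2, by omega⟩
      have hc6 : (1 : ℝ) ≤ (c ^ 6) ^ n := one_le_pow₀ (one_le_pow₀ hc)
      have d4 : E.N d ≤ (c ^ 6) ^ n * E.N q * (E.N t * E.N t' * w ^ j) := by
        rcases le_total (E.N t) (E.N t') with hle | hle
        · calc E.N d ≤ _ := d1
            _ = E.N p * (E.N t * E.N t * E.N t ^ j) := by ring
            _ ≤ _ := by gcongr
        · calc E.N d ≤ _ := d2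
            _ = 1 * E.N q * (E.N t' * E.N t' * E.N t' ^ j) := by ring
            _ ≤ _ := by gcongr
      rw [e3, hh₂', E.N_mul]
      have nd := E.N_pos hd
      have c7 : (c ^ (j + 2)) ^ n * (c ^ 2) ^ n ≤ (c ^ 6) ^ n := by
        rw [← mul_pow]
        exact pow_le_pow_left₀ (by positivity) (by rw [mul_comm]; exact c6) n
      calc _ = 2 ^ n * ((c ^ (j + 2)) ^ n * (c ^ 2) ^ n) * E.N d * E.N h₂ /
            (E.N q * (E.N t * E.N t' * w ^ j)) := by field_simp; ring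
        _ ≤ 2 ^ n * (c ^ 6) ^ n * ((c ^ 6) ^ n * E.N q * (E.N t * E.N t' * w ^ j)) * E.N h₂ /
            (E.N q * (E.N t * E.N t' * w ^ j)) := by gcongr
        _ = (2 * c ^ 12) ^ n * E.N h₂ := by
            rw [mul_pow, show c ^ 12 = c ^ 6 * c ^ 6 by ring, mul_pow]; field_simp
    · intro S₃ hS₃ c₃
      have hr : ∀ a ∈ S₃, ∀ b ∈ S₃, x a * x' b = x' a * x b := fun a ha b hb => by
        rw [hx a (hS₃ ha), hx b (hS₃ hb), hx' a (hS₃ ha), hx' b (hS₃ hb)]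
        linear_combination t * t' * c₃ a ha b hb
      have hsub3 : S₃ ⊆ S := hS₃.trans hsub
      refine card_le_of_fibers S₃ x _ _ (by positivity) ?_ fun S₄ hS₄ c₄ => ?_
      · refine card_image_of_pow_eq S₃ x i (by omega) hi4 fun a ha b hb => ?_
        refine mul_left_cancel₀ hh ?_
        have h1 : (x a * x' b) ^ i = (x' a * x b) ^ i := by rw [hr a ha b hb]
        rw [mul_pow, mul_pow] at h1
        linear_combination (x b ^ i) * heq a (hsub3 ha) - (x a ^ i) * heq b (hsub3 hb) - q * h1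
      refine card_le_of_fibers S₄ x' _ _ hk ?_ fun S₅ hS₅ c₅ => ?_
      · refine card_image_of_pow_eq S₄ x' i (by omega) hi4 fun a ha b hb => ?_
        refine mul_left_cancel₀ hq ?_
        have h1 := c₄ a ha b hb
        have h2 := heq a (hsub3 (hS₄ ha))
        rw [h1] at h2
        linear_combination heq b (hsub3 (hS₄ hb)) - h2
      exact hfib S₅ (hS₅.trans (hS₄.trans hsub3)) fun a ha b hb =>
        ⟨c₄ a (hS₅ ha) b (hS₅ hb), c₅ a ha b hb⟩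
  refine key.trans (le_of_eq ?_)
  rw [cT]; ring

end Pool.Agent.MP_2a5a28_nt
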