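import Pool.Agent.MP_2a5a28_nt.ToolP

/-! The Cauchy-Schwarz bound. -/

namespace Pool.Agent.MP_2a5a28_nt

open Finset UniqueFactorizationMonoid

set_option linter.unusedSectionVars false

theorem cauchy_schwarz {α β : Type*} [DecidableEq β] (S : Finset α) (ω : α → β)
    {Ω F : ℝ} (hΩ : ((S.image ω).card : ℝ) ≤ Ω)
    (hF' : ∀ W : Finset (α × α), (∀ π ∈ W, (π.1 ∈ S ∧ π.2 ∈ S) ∧ π.1 ≠ π.2 ∧ ω π.1 = ω π.2) →
      (W.card : ℝ) ≤ F) :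
    (S.card : ℝ) ≤ 2 * Ω ∨ (S.card : ℝ) ^ 2 ≤ 2 * Ω * F := by
  classical
  have hF : (((S ×ˢ S).filter fun π => π.1 ≠ π.2 ∧ ω π.1 = ω π.2).card : ℝ) ≤ F :=
    hF' _ fun π hπ => ⟨Finset.mem_product.1 (Finset.mem_filter.1 hπ).1, (Finset.mem_filter.1 hπ).2⟩
  have h1 : S.card = ∑ o ∈ S.image ω, (S.filter fun x => ω x = o).card :=
    Finset.card_eq_sum_card_image ω S
  have h2 : ((S ×ˢ S).filter fun π => ω π.1 = ω π.2).card =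
      ∑ o ∈ S.image ω, (S.filter fun x => ω x = o).card ^ 2 := by
    rw [Finset.card_eq_sum_card_fiberwise (f := fun π : α × α => ω π.1) (t := S.image ω)]
    · refine Finset.sum_congr rfl fun o _ => ?_
      rw [sq, ← Finset.card_product]
      congr 1
      ext π
      simp only [Finset.mem_filter, Finset.mem_product]
      constructor
      · rintro ⟨⟨⟨a, b⟩, c⟩, d⟩; exact ⟨⟨a, d⟩, b, c ▸ d⟩
      · rintro ⟨⟨a, d⟩, b, c⟩; exact ⟨⟨⟨a, b⟩, d.trans c.symm⟩, d⟩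
    · intro π hπ
      simp only [Finset.coe_filter, Finset.mem_product, Set.mem_ofPred_eq] at hπ
      exact Finset.mem_coe.2 (Finset.mem_image_of_mem _ hπ.1.1)
  have h3 : ((S ×ˢ S).filter fun π => ω π.1 = ω π.2).card ≤ S.card +
      ((S ×ˢ S).filter fun π => π.1 ≠ π.2 ∧ ω π.1 = ω π.2).card := by
    calc _ ≤ (S.image (fun x => (x, x)) ∪
          (S ×ˢ S).filter fun π => π.1 ≠ π.2 ∧ ω π.1 = ω π.2).card := by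
          refine Finset.card_le_card fun π hπ => ?_
          rw [Finset.mem_filter] at hπ
          by_cases e : π.1 = π.2
          · refine Finset.mem_union_left _ (Finset.mem_image.2 ⟨π.1, (Finset.mem_product.1 hπ.1).1, ?_⟩)
            exact Prod.ext rfl e
          · exact Finset.mem_union_right _ (Finset.mem_filter.2 ⟨hπ.1, e, hπ.2⟩)
      _ ≤ _ := (Finset.card_union_le _ _).trans (Nat.add_le_add_right Finset.card_image_le _)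
  have h4 := sq_sum_le_card_mul_sum_sq (s := S.image ω)
    (f := fun o => ((S.filter fun x => ω x = o).card : ℝ))
  have h5 : (S.card : ℝ) ^ 2 ≤ Ω * (S.card + F) := by
    have e1 : (S.card : ℝ) = ∑ o ∈ S.image ω, ((S.filter fun x => ω x = o).card : ℝ) := by
      exact_mod_cast h1
    have e2 : ∑ o ∈ S.image ω, ((S.filter fun x => ω x = o).card : ℝ) ^ 2 ≤ S.card + F := by
      rw [h2] at h3
      have : ((∑ o ∈ S.image ω, (S.filter fun x => ω x = o).card ^ 2 : ℕ) : ℝ) ≤ S.card +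
        (((S ×ˢ S).filter fun π => π.1 ≠ π.2 ∧ ω π.1 = ω π.2).card : ℝ) := by exact_mod_cast h3
      push_cast at this
      linarith
    rw [← e1] at h4
    exact h4.trans (mul_le_mul hΩ e2 (Finset.sum_nonneg fun _ _ => sq_nonneg _) ((Nat.cast_nonneg _).trans hΩ))
  have hΩ0 : 0 ≤ Ω := (Nat.cast_nonneg _).trans hΩ
  have hN : (0 : ℝ) ≤ S.card := Nat.cast_nonneg _
  by_cases hc : (S.card : ℝ) ≤ 2 * Ω
  · exact Or.inl hc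
  · right
    push Not at hc
    nlinarith

variable {R : Type*} [CommRing R] [IsDomain R] [IsPrincipalIdealRing R] [NormalizationMonoid R]
  {V : Type*} [Fintype V] {α : Type*}

theorem exists_bal_quot (E : Emb R V) {y y' : R} (hy : y ≠ 0) {β : ℝ} (h1 : ∀ ν, |E.σ ν y| ≤ β)
    (h2 : ∀ ν, |E.σ ν y'| ≤ β) :
    ∃ d y₀ y₀', y = d * y₀ ∧ y' = d * y₀' ∧ IsCoprime y₀ y₀' ∧
      (∀ ν, |E.σ ν y₀| ≤ (E.c * β) ^ Fintype.card V) ∧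
      ∀ ν, |E.σ ν y₀'| ≤ (E.c * β) ^ Fintype.card V := by
  obtain ⟨d, a, b, e1, e2, hco⟩ := exists_coprime_quot y y' hy
  have hd : d ≠ 0 := fun h0 => hy (by rw [e1, h0, zero_mul])
  have hβ : 0 ≤ β := le_trans zero_le_one (E.one_le_box hy h1)
  obtain ⟨u, hu⟩ := E.exists_bal hd hβ ((E.N_le_of_dvd ⟨a, e1⟩ hy).trans (E.N_le_pow h1))
  have hc : β ≤ E.c * β := le_mul_of_one_le_left hβ E.one_le_c
  have f1 : y = (u * d) * ((u⁻¹ : Rˣ) * a) := by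
    rw [e1]
    calc d * a = ((u : R) * (u⁻¹ : Rˣ)) * (d * a) := by simp
      _ = _ := by ring
  have f2 : y' = (u * d) * ((u⁻¹ : Rˣ) * b) := by
    rw [e2]
    calc d * b = ((u : R) * (u⁻¹ : Rˣ)) * (d * b) := by simp
      _ = _ := by ring
  have hud : (u : R) * d ≠ 0 := mul_ne_zero u.ne_zero hd
  refine ⟨u * d, _, _, f1, f2, ?_, E.box_of_mul hud hu fun ν => f1 ▸ (h1 ν).trans hc,
    E.box_of_mul hud hu fun ν => f2 ▸ (h2 ν).trans hc⟩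
  exact (isCoprime_mul_unit_left (u⁻¹).isUnit _ _).2 hco

/-- A factorisation of the members of a family of triples. -/
structure Fac (S : Finset α) (a b c aO ao ae x bo be y cO co ce z : α → R) (i g : ℕ) : Prop where
  ha : ∀ P ∈ S, a P = aO P * ao P * (ae P * x P ^ i)
  hb : ∀ P ∈ S, b P = bo P * (be P * y P ^ g)
  hc : ∀ P ∈ S, c P = cO P * co P * (ce P * z P ^ g)

/-- A set of pairs of distinct triples with common outer variables and known enumerated parts. -/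
structure Off (S : Finset α) (a b c ao x bo y co z : α → R) (mO kO a₁ a₂ b₁ b₂ k₁ k₂ : R)
    (i g : ℕ) (W : Finset (α × α)) : Prop where
  m1 : ∀ π ∈ W, π.1 ∈ S
  m2 : ∀ π ∈ W, π.2 ∈ S
  ne : ∀ π ∈ W, π.1 ≠ π.2
  hg : 1 ≤ g
  ea₁ : ∀ π ∈ W, a π.1 = mO * ao π.1 * (a₁ * x π.1 ^ i)
  ea₂ : ∀ π ∈ W, a π.2 = mO * ao π.1 * (a₂ * x π.2 ^ i)
  eb₁ : ∀ π ∈ W, b π.1 = bo π.1 * (b₁ * y π.1 ^ g)
  eb₂ : ∀ π ∈ W, b π.2 = bo π.1 * (b₂ * y π.2 ^ g)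
  ec₁ : ∀ π ∈ W, c π.1 = kO * co π.1 * (k₁ * z π.1 ^ g)
  ec₂ : ∀ π ∈ W, c π.2 = kO * co π.1 * (k₂ * z π.2 ^ g)

theorem box_ineqs {c β B : ℝ} {n : ℕ} (hn : 0 < n) (hc : 1 ≤ c) (hβ : 1 ≤ β)
    (hB : (2 * c * β ^ 2) ^ n ≤ B) : (c * β) ^ n ≤ B ∧ c * β ≤ B ∧ β ≤ B ∧ (2 * β ^ 2) ^ n ≤ B ∧
      (β * β) ^ n ≤ B ∧ β ^ n ≤ B := by
  have hbig : ∀ t : ℝ, 0 ≤ t → t ≤ 2 * c * β ^ 2 → t ^ n ≤ B := fun t h0 ht =>
    (pow_le_pow_left₀ h0 ht n).trans hB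
  have hcβ1 : 1 ≤ c * β := one_le_mul_of_one_le_of_one_le hc hβ
  have h1 : β ≤ β ^ 2 := by nlinarith
  have h2 : β ^ 2 ≤ c * β ^ 2 := by nlinarith
  have hcβ : c * β ≤ 2 * c * β ^ 2 := by nlinarith
  have hB1 : (c * β) ^ n ≤ B := hbig _ (by linarith) hcβ
  have hB2 : c * β ≤ B := (le_self_pow₀ hcβ1 hn.ne').trans hB1
  exact ⟨hB1, hB2, (le_mul_of_one_le_left (by linarith) hc).trans hB2,
    hbig _ (by positivity) (by nlinarith), hbig _ (by positivity) (by nlinarith),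
    hbig _ (by positivity) (by nlinarith)⟩

theorem one_le_cT (V : Type*) [Fintype V] {κ : ℝ} (hκ : 1 ≤ κ) : 1 ≤ cT V κ := by
  rw [cT]
  have : (0 : ℝ) ≤ (2 * κ ^ 12) ^ Fintype.card V := by positivity
  have := one_le_cR V
  nlinarith

namespace Off

variable {E : Emb R V} {S : Finset α} {a b c : α → R} {TA TB TC M : V → ℝ} {κ β : ℝ}
  (h : Tri E S a b c TA TB TC M κ β) {ao x bo y co z : α → R} {mO kO a₁ a₂ b₁ b₂ k₁ k₂ : R}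
  {i g : ℕ} {W : Finset (α × α)} (o : Off S a b c ao x bo y co z mO kO a₁ a₂ b₁ b₂ k₁ k₂ i g W)

include o

theorem mono {W' : Finset (α × α)} (hW : W' ⊆ W) :
    Off S a b c ao x bo y co z mO kO a₁ a₂ b₁ b₂ k₁ k₂ i g W' :=
  ⟨fun π hπ => o.m1 π (hW hπ), fun π hπ => o.m2 π (hW hπ), fun π hπ => o.ne π (hW hπ), o.hg,
    fun π hπ => o.ea₁ π (hW hπ), fun π hπ => o.ea₂ π (hW hπ), fun π hπ => o.eb₁ π (hW hπ),
    fun π hπ => o.eb₂ π (hW hπ), fun π hπ => o.ec₁ π (hW hπ), fun π hπ => o.ec₂ π (hW hπ)⟩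

theorem eP {π : α × α} (hπ : π ∈ W) : b π.1 * c π.2 =
    (bo π.1 * (kO * co π.1)) * ((b₁ * k₂) * (y π.1 * z π.2) ^ g) := by
  rw [o.eb₁ π hπ, o.ec₂ π hπ]; ring

theorem eQ {π : α × α} (hπ : π ∈ W) : b π.2 * c π.1 =
    (bo π.1 * (kO * co π.1)) * ((b₂ * k₁) * (y π.2 * z π.1) ^ g) := by
  rw [o.eb₂ π hπ, o.ec₁ π hπ]; ring

theorem hpw (t : R) : t ∣ t ^ g := dvd_pow_self t (by have := o.hg; omega)

theorem dy₁ {π : α × α} (hπ : π ∈ W) : y π.1 ∣ b π.1 := by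
  rw [o.eb₁ π hπ]; exact ((o.hpw _).mul_left _).mul_left _

theorem dy₂ {π : α × α} (hπ : π ∈ W) : y π.2 ∣ b π.2 := by
  rw [o.eb₂ π hπ]; exact ((o.hpw _).mul_left _).mul_left _

theorem dz₁ {π : α × α} (hπ : π ∈ W) : z π.1 ∣ c π.1 := by
  rw [o.ec₁ π hπ]; exact ((o.hpw _).mul_left _).mul_left _

theorem dz₂ {π : α × α} (hπ : π ∈ W) : z π.2 ∣ c π.2 := by
  rw [o.ec₂ π hπ]; exact ((o.hpw _).mul_left _).mul_left _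

theorem du₁ {π : α × α} (hπ : π ∈ W) : mO * ao π.1 ∣ a π.1 := ⟨_, o.ea₁ π hπ⟩

theorem du₂ {π : α × α} (hπ : π ∈ W) : mO * ao π.1 ∣ a π.2 := ⟨_, o.ea₂ π hπ⟩

include h

theorem hD {π : α × α} (hπ : π ∈ W) : a π.1 * b π.2 - a π.2 * b π.1 ≠ 0 := fun h0 =>
  o.ne π hπ (h.inj _ (o.m1 π hπ) _ (o.m2 π hπ) (sub_eq_zero.1 h0))

theorem cP {π : α × α} (hπ : π ∈ W) : IsCoprime (mO * ao π.1) (b π.1 * c π.2) :=
  ((h.cop _ (o.m1 π hπ)).1.of_isCoprime_of_dvd_left (o.du₁ hπ)).mul_right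
    ((h.cop _ (o.m2 π hπ)).2.1.of_isCoprime_of_dvd_left (o.du₂ hπ))

theorem cQ {π : α × α} (hπ : π ∈ W) : IsCoprime (mO * ao π.1) (b π.2 * c π.1) :=
  ((h.cop _ (o.m2 π hπ)).1.of_isCoprime_of_dvd_left (o.du₂ hπ)).mul_right
    ((h.cop _ (o.m1 π hπ)).2.1.of_isCoprime_of_dvd_left (o.du₁ hπ))

theorem duD {π : α × α} (hπ : π ∈ W) : mO * ao π.1 ∣ b π.1 * c π.2 - b π.2 * c π.1 := by
  rw [h.cross_bc (o.m1 π hπ) (o.m2 π hπ)]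
  exact dvd_sub ((o.du₁ hπ).mul_right _) ((o.du₂ hπ).mul_right _)

theorem nP {π : α × α} (hπ : π ∈ W) : b π.1 * c π.2 ≠ 0 :=
  mul_ne_zero (h.ne _ (o.m1 π hπ)).2.1 (h.ne _ (o.m2 π hπ)).2.2

theorem nQ {π : α × α} (hπ : π ∈ W) : b π.2 * c π.1 ≠ 0 :=
  mul_ne_zero (h.ne _ (o.m2 π hπ)).2.1 (h.ne _ (o.m1 π hπ)).2.2

theorem nY {π : α × α} (hπ : π ∈ W) : y π.1 * z π.2 ≠ 0 :=
  ne_zero_of_dvd_ne_zero (o.nP h hπ) (mul_dvd_mul (o.dy₁ hπ) (o.dz₂ hπ))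

theorem nY' {π : α × α} (hπ : π ∈ W) : y π.2 * z π.1 ≠ 0 :=
  ne_zero_of_dvd_ne_zero (o.nQ h hπ) (mul_dvd_mul (o.dy₂ hπ) (o.dz₁ hπ))

theorem arch {π π' : α × α} (hπ : π ∈ W) (hπ' : π' ∈ W) (ν : V) :
    |E.σ ν ((y π.1 * z π.2 * (y π'.2 * z π'.1)) ^ g - (y π.2 * z π.1 * (y π'.1 * z π'.2)) ^ g)| ≤
      2 * (2 * κ ^ 2 * TA ν / M ν) * κ ^ 2 * |E.σ ν ((y π.2 * z π.1 * (y π'.1 * z π'.2)) ^ g)| := by
  have hκ := h.one_le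
  obtain ⟨p1, p2, p3, p4⟩ := h.pos (o.m1 π hπ) ν
  have hδ : ∀ π ∈ W, |E.σ ν (b π.1 * c π.2) - E.σ ν (b π.2 * c π.1)| ≤
      (2 * κ ^ 2 * TA ν / M ν) * |E.σ ν (b π.2 * c π.1)| := by
    intro π hπ
    rw [← map_sub, h.cross_bc (o.m1 π hπ) (o.m2 π hπ)]
    refine (h.cross_le (o.m1 π hπ) (o.m2 π hπ) ν).trans ?_
    have h2 := (Tri.prod_le hκ h.rb h.rc (o.m2 π hπ) (o.m1 π hπ) ν).1
    calc _ = 2 * TA ν / M ν * (TB ν * TC ν) := by ring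
      _ ≤ 2 * TA ν / M ν * _ := mul_le_mul_of_nonneg_left h2 (by positivity)
      _ = _ := by ring
  have h1 := cross_le (hδ π hπ) (hδ π' hπ')
    ((Tri.prod_le hκ h.rb h.rc (o.m2 π' hπ') (o.m1 π' hπ') ν).2.trans
      (Tri.prod_le hκ h.rb h.rc (o.m1 π' hπ') (o.m2 π' hπ') ν).1) (by positivity)
  obtain ⟨l, hl⟩ : ∃ l, l =
    (bo π.1 * (kO * co π.1)) * (bo π'.1 * (kO * co π'.1)) * ((b₁ * k₂) * (b₂ * k₁)) := ⟨_, rfl⟩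
  have e4 : b π.2 * c π.1 * (b π'.1 * c π'.2) = l * (y π.2 * z π.1 * (y π'.1 * z π'.2)) ^ g := by
    rw [o.eQ hπ, o.eP hπ', hl]; ring
  have e3 : b π.1 * c π.2 * (b π'.2 * c π'.1) = l * (y π.1 * z π.2 * (y π'.2 * z π'.1)) ^ g := by
    rw [o.eP hπ, o.eQ hπ', hl]; ring
  have hne : l ≠ 0 := by
    have := mul_ne_zero (o.nQ h hπ) (o.nP h hπ')
    rw [e4] at this
    exact left_ne_zero_of_mul this
  rw [← map_mul, ← map_mul, ← map_sub, e3, e4, ← mul_sub, map_mul, map_mul (E.σ ν) l, abs_mul,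
    abs_mul] at h1
  refine le_of_mul_le_mul_left ?_ (E.abs_pos hne ν)
  exact h1.trans (le_of_eq (by ring))

theorem ending_lin {u η η' p q : R} {θ : α × α → R} (hx : ∀ P ∈ S, x P = 1)
    (hu : ∀ π ∈ W, mO * ao π.1 = u) (fb₁ : ∀ π ∈ W, b π.1 = θ π * η)
    (fb₂ : ∀ π ∈ W, b π.2 = θ π * η') (hpq : p - q ≠ 0)
    (hr : ∀ π ∈ W, b π.1 * c π.2 * q = b π.2 * c π.1 * p) : (W.card : ℝ) ≤ 1 := by
  refine card_le_one' _ fun π hπ π' hπ' => ?_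
  have fa₁ : ∀ π ∈ W, a π.1 = u * a₁ := fun π hπ => by
    rw [o.ea₁ π hπ, hu π hπ, hx _ (o.m1 π hπ), one_pow, mul_one]
  have fa₂ : ∀ π ∈ W, a π.2 = u * a₂ := fun π hπ => by
    rw [o.ea₂ π hπ, hu π hπ, hx _ (o.m2 π hπ), one_pow, mul_one]
  have n1 : ∀ π ∈ W, θ π * η ≠ 0 := fun π hπ => by
    rw [← fb₁ π hπ]; exact (h.ne _ (o.m1 π hπ)).2.1
  have n2 : θ π * η' ≠ 0 := by
    rw [← fb₂ π hπ]; exact (h.ne _ (o.m2 π hπ)).2.1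
  have hθ : ∀ π ∈ W, θ π * (η * η' * (p - q)) = η * (u * a₂) * q - η' * (u * a₁) * p := by
    intro π hπ
    have q1 := hr π hπ
    have q2 : c π.1 = -(u * a₁) - θ π * η := by
      linear_combination h.sum _ (o.m1 π hπ) - fa₁ π hπ - fb₁ π hπ
    have q3 : c π.2 = -(u * a₂) - θ π * η' := by
      linear_combination h.sum _ (o.m2 π hπ) - fa₂ π hπ - fb₂ π hπ
    rw [fb₁ π hπ, fb₂ π hπ, q2, q3] at q1
    refine mul_left_cancel₀ (left_ne_zero_of_mul (n1 π hπ)) ?_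
    linear_combination q1
  have e1 : θ π = θ π' :=
    mul_right_cancel₀ (mul_ne_zero (mul_ne_zero (right_ne_zero_of_mul (n1 π hπ))
      (right_ne_zero_of_mul n2)) hpq) ((hθ π hπ).trans (hθ π' hπ').symm)
  refine Prod.ext (h.inj _ (o.m1 π hπ) _ (o.m1 π' hπ') ?_) (h.inj _ (o.m2 π hπ) _ (o.m2 π' hπ') ?_)
  · rw [fa₁ π hπ, fa₁ π' hπ', fb₁ π hπ, fb₁ π' hπ', e1]
  · rw [fa₂ π hπ, fa₂ π' hπ', fb₂ π hπ, fb₂ π' hπ', e1]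

theorem ending_thue {B Δ : ℝ} (hS : Small E B Δ) (hB2 : E.c * β ≤ B)
    (hB4 : (2 * β ^ 2) ^ Fintype.card V ≤ B) (hi2 : 2 ≤ i) (hi4 : i ≤ 4) {Tx : V → ℝ}
    (hx : Rng E S x Tx κ) (hβ : ∀ ν, Tx ν ≤ β) {u η η' : R} {θ : α × α → R}
    (hend : ∀ P ∈ S, co P = 1 ∧ z P = 1) (hu : ∀ π ∈ W, mO * ao π.1 = u)
    (fb₁ : ∀ π ∈ W, b π.1 = θ π * η) (fb₂ : ∀ π ∈ W, b π.2 = θ π * η') :
    (W.card : ℝ) ≤ cT V κ * Δ ^ 3 := by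
  have hκ := h.one_le
  have hcT := one_le_cT V hκ
  have hΔ := hS.one_le
  refine card_le_of_nonempty _ _ (by positivity) fun π₂ hπ₂ => ?_
  have fa₁ : ∀ π ∈ W, a π.1 = u * (a₁ * x π.1 ^ i) := fun π hπ => by rw [o.ea₁ π hπ, hu π hπ]
  have fa₂ : ∀ π ∈ W, a π.2 = u * (a₂ * x π.2 ^ i) := fun π hπ => by rw [o.ea₂ π hπ, hu π hπ]
  have n1 : ∀ π ∈ W, θ π * η ≠ 0 := fun π hπ => by
    rw [← fb₁ π hπ]; exact (h.ne _ (o.m1 π hπ)).2.1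
  have n2 : ∀ π ∈ W, u * (a₁ * x π.1 ^ i) ≠ 0 := fun π hπ => by
    rw [← fa₁ π hπ]; exact (h.ne _ (o.m1 π hπ)).1
  have n3 : ∀ π ∈ W, u * (a₂ * x π.2 ^ i) ≠ 0 := fun π hπ => by
    rw [← fa₂ π hπ]; exact (h.ne _ (o.m2 π hπ)).1
  have nθ : ∀ π ∈ W, θ π ≠ 0 := fun π hπ => left_ne_zero_of_mul (n1 π hπ)
  have nη : η ≠ 0 := right_ne_zero_of_mul (n1 π₂ hπ₂)
  have nu : u ≠ 0 := left_ne_zero_of_mul (n2 π₂ hπ₂)
  have fc₁ : ∀ π ∈ W, c π.1 = kO * k₁ := fun π hπ => by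
    rw [o.ec₁ π hπ, (hend _ (o.m1 π hπ)).1, (hend _ (o.m1 π hπ)).2]; ring
  have fc₂ : ∀ π ∈ W, c π.2 = kO * k₂ := fun π hπ => by
    rw [o.ec₂ π hπ, (hend _ (o.m1 π hπ)).1, (hend _ (o.m2 π hπ)).2]; ring
  have fD : ∀ π ∈ W, a π.1 * b π.2 - a π.2 * b π.1 =
      (u * θ π) * ((a₁ * η') * x π.1 ^ i - (a₂ * η) * x π.2 ^ i) := fun π hπ => by
    rw [fa₁ π hπ, fa₂ π hπ, fb₁ π hπ, fb₂ π hπ]; ring
  have fT : ∀ π ∈ W, u * ((a₁ * η') * x π.1 ^ i - (a₂ * η) * x π.2 ^ i) =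
      kO * (η * k₂ - η' * k₁) := fun π hπ => by
    refine mul_left_cancel₀ (nθ π hπ) ?_
    have := h.cross_bc (o.m1 π hπ) (o.m2 π hπ)
    rw [fD π hπ, fb₁ π hπ, fb₂ π hπ, fc₁ π hπ, fc₂ π hπ] at this
    linear_combination -this
  have hdv : (a₁ * η') * x π₂.1 ^ i - (a₂ * η) * x π₂.2 ^ i ∣
      a π₂.1 * b π₂.2 - a π₂.2 * b π₂.1 := Dvd.intro_left _ (fD π₂ hπ₂).symm
  have na₂ : a₂ ≠ 0 := left_ne_zero_of_mul (right_ne_zero_of_mul (n3 π₂ hπ₂))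
  have := thue_count hS i hi2 hi4 (a₁ * η') (a₂ * η) _ (mul_ne_zero na₂ nη)
    (ne_zero_of_dvd_ne_zero (o.hD h hπ₂) hdv)
    ((E.N_le_of_dvd hdv (o.hD h hπ₂)).trans ((h.cross_N (o.m1 _ hπ₂) (o.m2 _ hπ₂)).trans hB4)) W
    (fun π => x π.1) (fun π => x π.2) Tx κ β 1 hκ zero_le_one hB2
    (fun π hπ => mul_left_cancel₀ nu ((fT π hπ).trans (fT π₂ hπ₂).symm)) ?_
    (fun π hπ => hx _ (o.m1 π hπ)) (fun π hπ => hx _ (o.m2 π hπ)) hβ ?_ ?_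
  · simpa using this
  · intro π hπ
    exact ⟨fun h0 => n2 π hπ (by simp only [h0, zero_pow (by omega : i ≠ 0), mul_zero]),
      fun h0 => n3 π hπ (by simp only [h0, zero_pow (by omega : i ≠ 0), mul_zero])⟩
  · intro π hπ ν
    have h1 := Tri.prod_le hκ h.ra h.rb (o.m1 π hπ) (o.m2 π hπ) ν
    have h2 := Tri.prod_le hκ h.ra h.rb (o.m2 π hπ) (o.m1 π hπ) ν
    have e1 : a π.1 * b π.2 = (u * θ π) * ((a₁ * η') * x π.1 ^ i) := by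
      rw [fa₁ π hπ, fb₂ π hπ]; ring
    have e2 : a π.2 * b π.1 = (u * θ π) * ((a₂ * η) * x π.2 ^ i) := by
      rw [fa₂ π hπ, fb₁ π hπ]; ring
    rw [e1, map_mul, abs_mul] at h1
    rw [e2, map_mul, abs_mul] at h2
    have hpos := E.abs_pos (mul_ne_zero nu (nθ π hπ)) ν
    constructor
    · refine le_of_mul_le_mul_left ?_ hpos
      exact (h1.2.trans h2.1).trans (le_of_eq (by ring))
    · refine le_of_mul_le_mul_left ?_ hpos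
      exact (h2.2.trans h1.1).trans (le_of_eq (by ring))
  · intro W₄ hW₄ c₄
    refine card_le_one' _ fun π hπ π' hπ' => ?_
    have hπ3 := hW₄ hπ
    have hπ3' := hW₄ hπ'
    have e1 : a π.1 = a π'.1 := by rw [fa₁ π hπ3, fa₁ π' hπ3', (c₄ π hπ π' hπ').1]
    have e2 : a π.2 = a π'.2 := by rw [fa₂ π hπ3, fa₂ π' hπ3', (c₄ π hπ π' hπ').2]
    have e3 : b π.1 = b π'.1 := by
      linear_combination h.sum _ (o.m1 π hπ3) - h.sum _ (o.m1 π' hπ3') - e1 - fc₁ π hπ3 +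
        fc₁ π' hπ3'
    have e4 : b π.2 = b π'.2 := by
      linear_combination h.sum _ (o.m2 π hπ3) - h.sum _ (o.m2 π' hπ3') - e2 - fc₂ π hπ3 +
        fc₂ π' hπ3'
    exact Prod.ext (h.inj _ (o.m1 π hπ3) _ (o.m1 π' hπ3') (by rw [e1, e3]))
      (h.inj _ (o.m2 π hπ3) _ (o.m2 π' hπ3') (by rw [e2, e4]))

theorem fiber {B Δ : ℝ} (hS : Small E B Δ) (hB : (2 * E.c * β ^ 2) ^ Fintype.card V ≤ B)
    (hi4 : i ≤ 4) {Tx Ty Tz : V → ℝ} (hx : Rng E S x Tx κ) (hy : Rng E S y Ty κ)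
    (hz : Rng E S z Tz κ) (hβ : ∀ ν, Tx ν ≤ β ∧ Ty ν ≤ β ∧ Tz ν ≤ β)
    (hao : ∀ P ∈ S, ∀ ν, |E.σ ν (ao P)| ≤ β)
    (hend : (∀ P ∈ S, x P = 1) ∨ (2 ≤ i ∧ ∀ P ∈ S, co P = 1 ∧ z P = 1))
    (c₂ : ∀ π ∈ W, ∀ π' ∈ W,
      y π.1 * z π.2 * (y π'.2 * z π'.1) = y π.2 * z π.1 * (y π'.1 * z π'.2)) :
    (W.card : ℝ) ≤ Δ * (Δ * Δ) * (cT V κ * Δ ^ 3) := by
  classical
  have hκ := h.one_le
  have hcT := one_le_cT V hκ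
  have hΔ := hS.one_le
  refine card_le_of_nonempty _ _ (by positivity) fun π₁ hπ₁ => ?_
  have hβ1 : 1 ≤ β := E.one_le_box (h.ne _ (o.m1 π₁ hπ₁)).1
    fun ν => (h.ra _ (o.m1 π₁ hπ₁) ν).2.trans (h.box ν).1
  obtain ⟨hB1, hB2, hB3, hB4, hB5, -⟩ := box_ineqs E.pos_card E.one_le_c hβ1 hB
  obtain ⟨d, Y₀, Y₀', eY, eY', hcoY⟩ := exists_coprime_quot (y π₁.1 * z π₁.2) (y π₁.2 * z π₁.1)
    (o.nY h hπ₁)
  have n1 := o.nY h hπ₁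
  have n2 := o.nY' h hπ₁
  rw [eY] at n1
  rw [eY'] at n2
  have hd : d ≠ 0 := left_ne_zero_of_mul n1
  have hY₀ : Y₀ ≠ 0 := right_ne_zero_of_mul n1
  have hY₀' : Y₀' ≠ 0 := right_ne_zero_of_mul n2
  have hrat : ∀ π ∈ W, y π.1 * z π.2 * Y₀' = y π.2 * z π.1 * Y₀ := fun π hπ => by
    have := c₂ π hπ π₁ hπ₁
    rw [eY, eY'] at this
    refine mul_left_cancel₀ hd ?_
    linear_combination this
  have hG : ∀ π ∈ W, ∃ G, y π.1 * z π.2 = G * Y₀ ∧ y π.2 * z π.1 = G * Y₀' := fun π hπ => by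
    obtain ⟨G, hG⟩ : Y₀ ∣ y π.1 * z π.2 :=
      hcoY.dvd_of_dvd_mul_right ⟨_, by rw [hrat π hπ, mul_comm]⟩
    refine ⟨G, by rw [hG, mul_comm], mul_right_cancel₀ hY₀ ?_⟩
    rw [← hrat π hπ, hG]; ring
  obtain ⟨h₁, hh₁⟩ : ∃ h₁, h₁ = (b₁ * k₂) * Y₀ ^ g - (b₂ * k₁) * Y₀' ^ g := ⟨_, rfl⟩
  have hDh : ∀ π ∈ W, ∃ t, t ∣ b π.1 * c π.2 ∧ b π.1 * c π.2 - b π.2 * c π.1 = t * h₁ :=
    fun π hπ => by
      obtain ⟨G, g1, g2⟩ := hG π hπ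
      refine ⟨bo π.1 * (kO * co π.1) * G ^ g, ⟨(b₁ * k₂) * Y₀ ^ g, ?_⟩, ?_⟩
      · rw [o.eP hπ, g1]; ring
      · rw [o.eP hπ, o.eQ hπ, g1, g2, hh₁]; ring
  have hh₁D : h₁ ∣ a π₁.1 * b π₁.2 - a π₁.2 * b π₁.1 := by
    obtain ⟨t, -, ht⟩ := hDh π₁ hπ₁
    rw [← h.cross_bc (o.m1 _ hπ₁) (o.m2 _ hπ₁), ht]
    exact dvd_mul_left _ _
  have hh₁0 : h₁ ≠ 0 := ne_zero_of_dvd_ne_zero (o.hD h hπ₁) hh₁D
  have hh₁B : E.N h₁ ≤ B := (E.N_le_of_dvd hh₁D (o.hD h hπ₁)).trans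
    ((h.cross_N (o.m1 _ hπ₁) (o.m2 _ hπ₁)).trans hB4)
  have hb : ∀ ν, Ty ν * Tz ν ≤ β * β := fun ν => mul_le_mul (hβ ν).2.1 (hβ ν).2.2
    ((abs_nonneg _).trans (hz _ (o.m1 _ hπ₁) ν).2) (zero_le_one.trans hβ1)
  have hYB : E.N Y₀ ≤ B := (E.N_le_of_dvd ⟨d, by rw [eY, mul_comm]⟩ (o.nY h hπ₁)).trans
    ((E.N_le_pow fun ν =>
      (Tri.prod_le hκ hy hz (o.m1 _ hπ₁) (o.m2 _ hπ₁) ν).2.trans (hb ν)).trans hB5)
  have hYB' : E.N Y₀' ≤ B := (E.N_le_of_dvd ⟨d, by rw [eY', mul_comm]⟩ (o.nY' h hπ₁)).trans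
    ((E.N_le_pow fun ν =>
      (Tri.prod_le hκ hy hz (o.m2 _ hπ₁) (o.m1 _ hπ₁) ν).2.trans (hb ν)).trans hB5)
  have hex : ∀ π : α × α, ∃ t y₀ y₀', π ∈ W → (y π.1 = t * y₀ ∧ y π.2 = t * y₀' ∧
      IsCoprime y₀ y₀' ∧ (∀ ν, |E.σ ν y₀| ≤ (E.c * β) ^ Fintype.card V) ∧
      ∀ ν, |E.σ ν y₀'| ≤ (E.c * β) ^ Fintype.card V) := by
    intro π
    by_cases hπ : π ∈ W
    · obtain ⟨t, y₀, y₀', hh⟩ := exists_bal_quot E (left_ne_zero_of_mul (o.nY h hπ))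
        (fun ν => (hy _ (o.m1 π hπ) ν).2.trans (hβ ν).2.1)
        (fun ν => (hy _ (o.m2 π hπ) ν).2.trans (hβ ν).2.1)
      exact ⟨t, y₀, y₀', fun _ => hh⟩
    · exact ⟨0, 0, 0, fun h => (hπ h).elim⟩
  choose t y₀ y₀' hy₀ using hex
  have nt : ∀ π ∈ W, t π ≠ 0 ∧ y₀ π ≠ 0 ∧ y₀' π ≠ 0 := fun π hπ => by
    have h1 := left_ne_zero_of_mul (o.nY h hπ)
    have h2 := left_ne_zero_of_mul (o.nY' h hπ)
    rw [(hy₀ π hπ).1] at h1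
    rw [(hy₀ π hπ).2.1] at h2
    exact ⟨left_ne_zero_of_mul h1, right_ne_zero_of_mul h1, right_ne_zero_of_mul h2⟩
  have hrat' : ∀ π ∈ W, y₀ π * z π.2 * Y₀' = y₀' π * z π.1 * Y₀ := fun π hπ => by
    have := hrat π hπ
    rw [(hy₀ π hπ).1, (hy₀ π hπ).2.1] at this
    refine mul_left_cancel₀ (nt π hπ).1 ?_
    linear_combination this
  refine card_le_of_fibers W (fun π => (ao π.1, y₀ π, y₀' π)) _ _ (by positivity)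
    (card_image_pair _ _ _ ?_ (card_image_pair _ _ _ ?_ ?_)) fun W₃ hW₃ c₃ => ?_
  · refine hS.smooth h₁ hh₁0 hh₁B _ fun e he => ?_
    obtain ⟨π, hπ, rfl⟩ := Finset.mem_image.1 he
    refine ⟨right_ne_zero_of_mul (ne_zero_of_dvd_ne_zero (h.ne _ (o.m1 π hπ)).1 (o.du₁ hπ)),
      fun ν => (hao _ (o.m1 π hπ) ν).trans hB3, fun p _ hp => hp.trans ?_⟩
    obtain ⟨t, ht1, ht2⟩ := hDh π hπ
    have h1 := o.duD h hπ
    rw [ht2] at h1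
    exact (dvd_mul_left _ _).trans
      (((o.cP h hπ).of_isCoprime_of_dvd_right ht1).dvd_of_dvd_mul_left h1)
  · refine hS.smooth Y₀ hY₀ hYB _ fun e he => ?_
    obtain ⟨π, hπ, rfl⟩ := Finset.mem_image.1 he
    refine ⟨(nt π hπ).2.1, fun ν => ((hy₀ π hπ).2.2.2.1 ν).trans hB1, fun p _ hp => hp.trans ?_⟩
    refine IsCoprime.dvd_of_dvd_mul_left (x := y₀ π) (y := y₀' π * z π.1) ?_
      ⟨z π.2 * Y₀', by rw [← hrat' π hπ]; ring⟩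
    refine (hy₀ π hπ).2.2.1.mul_right ?_
    exact ((h.cop _ (o.m1 π hπ)).2.2.of_isCoprime_of_dvd_left
      ((Dvd.intro_left _ (hy₀ π hπ).1.symm).trans (o.dy₁ hπ))).of_isCoprime_of_dvd_right (o.dz₁ hπ)
  · refine hS.smooth Y₀' hY₀' hYB' _ fun e he => ?_
    obtain ⟨π, hπ, rfl⟩ := Finset.mem_image.1 he
    refine ⟨(nt π hπ).2.2, fun ν => ((hy₀ π hπ).2.2.2.2 ν).trans hB1, fun p _ hp => hp.trans ?_⟩
    refine IsCoprime.dvd_of_dvd_mul_left (x := y₀' π) (y := y₀ π * z π.2) ?_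
      ⟨z π.1 * Y₀, by rw [hrat' π hπ]; ring⟩
    refine (hy₀ π hπ).2.2.1.symm.mul_right ?_
    exact ((h.cop _ (o.m2 π hπ)).2.2.of_isCoprime_of_dvd_left
      ((Dvd.intro_left _ (hy₀ π hπ).2.1.symm).trans (o.dy₂ hπ))).of_isCoprime_of_dvd_right
      (o.dz₂ hπ)
  refine card_le_of_nonempty _ _ (by positivity) fun π₂ hπ₂ => ?_
  simp only [Prod.mk.injEq] at c₃
  have hu : ∀ π ∈ W₃, mO * ao π.1 = mO * ao π₂.1 := fun π hπ => by rw [(c₃ π hπ π₂ hπ₂).1]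
  have fb₁ : ∀ π ∈ W₃, b π.1 = (bo π.1 * t π ^ g) * (b₁ * y₀ π₂ ^ g) := fun π hπ => by
    rw [o.eb₁ π (hW₃ hπ), (hy₀ π (hW₃ hπ)).1, (c₃ π hπ π₂ hπ₂).2.1]; ring
  have fb₂ : ∀ π ∈ W₃, b π.2 = (bo π.1 * t π ^ g) * (b₂ * y₀' π₂ ^ g) := fun π hπ => by
    rw [o.eb₂ π (hW₃ hπ), (hy₀ π (hW₃ hπ)).2.1, (c₃ π hπ π₂ hπ₂).2.2]; ring
  rcases hend with hend | ⟨hi2, hend⟩
  · refine le_trans ((o.mono hW₃).ending_lin h (θ := fun π => bo π.1 * t π ^ g) hend hu fb₁ fb₂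
      (p := (b₁ * k₂) * Y₀ ^ g) (q := (b₂ * k₁) * Y₀' ^ g) (hh₁ ▸ hh₁0) fun π hπ => ?_)
      (one_le_mul_of_one_le_of_one_le hcT (one_le_pow₀ hΔ))
    obtain ⟨G, g1, g2⟩ := hG π (hW₃ hπ)
    rw [o.eP (hW₃ hπ), o.eQ (hW₃ hπ), g1, g2]; ring
  · exact (o.mono hW₃).ending_thue h hS hB2 hB4 hi2 hi4 hx (fun ν => (hβ ν).1)
      (θ := fun π => bo π.1 * t π ^ g) hend hu fb₁ fb₂

theorem step {B Δ : ℝ} (hS : Small E B Δ) (hB : (2 * E.c * β ^ 2) ^ Fintype.card V ≤ B)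
    (hi4 : i ≤ 4) (hg4 : g ≤ 4) {Tx Ty Tz TO Tr : V → ℝ} (hx : Rng E S x Tx κ)
    (hy : Rng E S y Ty κ) (hz : Rng E S z Tz κ) (hO : ∀ ν, 0 ≤ TO ν ∧ TO ν ≤ κ * |E.σ ν mO|)
    (hTA : ∀ ν, TA ν = TO ν * Tr ν) (hβ : ∀ ν, Tx ν ≤ β ∧ Ty ν ≤ β ∧ Tz ν ≤ β)
    (hao : ∀ P ∈ S, ∀ ν, |E.σ ν (ao P)| ≤ β)
    (hend : (∀ P ∈ S, x P = 1) ∨ (2 ≤ i ∧ ∀ P ∈ S, co P = 1 ∧ z P = 1)) {Q : ℝ} (hQ0 : 0 ≤ Q)
    (hQ : ∏ ν, (Ty ν * Tz ν) ^ 2 * Tr ν ≤ Q * ∏ ν, M ν) :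
    (W.card : ℝ) ≤ cR V * Δ * (1 + (4 * κ ^ 5) ^ Fintype.card V * Q) *
      (Δ * (Δ * Δ) * (cT V κ * Δ ^ 3)) := by
  have hκ := h.one_le
  have hcT := one_le_cT V hκ
  have hcR := one_le_cR V
  have hΔ := hS.one_le
  refine card_le_of_nonempty _ _ (by positivity) fun π₀ hπ₀ => ?_
  have hβ1 : 1 ≤ β := E.one_le_box (h.ne _ (o.m1 π₀ hπ₀)).1
    fun ν => (h.ra _ (o.m1 π₀ hπ₀) ν).2.trans (h.box ν).1
  obtain ⟨-, -, -, -, -, hB6⟩ := box_ineqs E.pos_card E.one_le_c hβ1 hB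
  have hmO0 : mO ≠ 0 := left_ne_zero_of_mul
    (ne_zero_of_dvd_ne_zero (h.ne _ (o.m1 π₀ hπ₀)).1 (o.du₁ hπ₀))
  refine ratio_count hS g o.hg hg4 mO (b₁ * k₂) (b₂ * k₁) hmO0 ?_ W (fun π => y π.1 * z π.2)
    (fun π => y π.2 * z π.1) (fun ν => Ty ν * Tz ν) (fun ν => Ty ν * Tz ν)
    (fun ν => 2 * (2 * κ ^ 2 * TA ν / M ν) * κ ^ 2) _ _ (by positivity) (by positivity) ?_ ?_ ?_ ?_
    (fun π hπ => ⟨o.nY h hπ, o.nY' h hπ⟩)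
    (fun π hπ ν => (Tri.prod_le hκ hy hz (o.m1 π hπ) (o.m2 π hπ) ν).2)
    (fun π hπ ν => (Tri.prod_le hκ hy hz (o.m2 π hπ) (o.m1 π hπ) ν).2)
    (fun π hπ π' hπ' ν => o.arch h hπ hπ' ν) ?_
    (fun W₂ hW₂ c₂ => (o.mono hW₂).fiber h hS hB hi4 hx hy hz hβ hao hend c₂)
  · refine (E.N_le_of_dvd ((dvd_mul_right _ _).trans (o.du₁ hπ₀)) (h.ne _ (o.m1 π₀ hπ₀)).1).trans
      (le_trans ?_ hB6)
    exact E.N_le_pow fun ν => (h.ra _ (o.m1 π₀ hπ₀) ν).2.trans (h.box ν).1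
  · refine ((o.cP h hπ₀).of_mul_left_left).of_isCoprime_of_dvd_right ?_
    rw [o.eP hπ₀]; exact (dvd_mul_right _ _).mul_left _
  · exact fun π hπ => ((o.cP h hπ).of_mul_left_left).of_isCoprime_of_dvd_right
      (mul_dvd_mul (o.dy₁ hπ) (o.dz₂ hπ))
  · exact fun π hπ => ((o.cQ h hπ).of_mul_left_left).of_isCoprime_of_dvd_right
      (mul_dvd_mul (o.dy₂ hπ) (o.dz₁ hπ))
  · intro π hπ
    have h1 := (dvd_mul_right _ _).trans (o.duD h hπ)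
    rw [o.eP hπ, o.eQ hπ, ← mul_sub] at h1
    refine IsCoprime.dvd_of_dvd_mul_left ?_ h1
    exact ((o.cP h hπ).of_mul_left_left).of_isCoprime_of_dvd_right ⟨_, o.eP hπ⟩
  · have hM : 0 < ∏ ν, M ν := Finset.prod_pos fun ν _ => (h.pos (o.m1 π₀ hπ₀) ν).2.2.2
    have e1 : ∏ ν, Ty ν * Tz ν * (Ty ν * Tz ν) * (2 * (2 * κ ^ 2 * TA ν / M ν) * κ ^ 2) =
        (4 * κ ^ 4) ^ Fintype.card V * ((∏ ν, (Ty ν * Tz ν) ^ 2 * Tr ν) / ∏ ν, M ν) *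
          ∏ ν, TO ν := by
      rw [← Finset.card_univ, ← Finset.prod_const, ← Finset.prod_div_distrib,
        ← Finset.prod_mul_distrib, ← Finset.prod_mul_distrib]
      refine Finset.prod_congr rfl fun ν _ => ?_
      rw [hTA]; ring
    have e2 : ∏ ν, TO ν ≤ κ ^ Fintype.card V * E.N mO := by
      rw [Emb.N, ← Finset.card_univ, ← Finset.prod_const, ← Finset.prod_mul_distrib]
      exact Finset.prod_le_prod (fun ν _ => (hO ν).1) fun ν _ => (hO ν).2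
    have e3 : 0 ≤ ∏ ν, TO ν := Finset.prod_nonneg fun ν _ => (hO ν).1
    rw [e1]
    calc _ ≤ (4 * κ ^ 4) ^ Fintype.card V * Q * (κ ^ Fintype.card V * E.N mO) := by
          gcongr
          exact (div_le_iff₀ hM).2 hQ
      _ = _ := by rw [show 4 * κ ^ 5 = (4 * κ ^ 4) * κ by ring, mul_pow (4 * κ ^ 4)]; ring

end Off

set_option synthInstance.maxSize 4000 in
theorem Tri.toolC [DecidableEq R] {E : Emb R V} {S : Finset α} {a b c : α → R}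
    {TA TB TC M : V → ℝ} {κ β : ℝ} (h : Tri E S a b c TA TB TC M κ β) {B Δ : ℝ} (hS : Small E B Δ)
    (hB : (2 * E.c * β ^ 2) ^ Fintype.card V ≤ B) {i g : ℕ} (hi4 : i ≤ 4) (hg1 : 1 ≤ g)
    (hg4 : g ≤ 4) {aO ao ae x bo be y cO co ce z : α → R}
    (F : Fac S a b c aO ao ae x bo be y cO co ce z i g) (Tx Ty Tz TO Tr : V → ℝ)
    (hx : Rng E S x Tx κ) (hy : Rng E S y Ty κ) (hz : Rng E S z Tz κ) (hO : Rng E S aO TO κ)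
    (hTA : ∀ ν, TA ν = TO ν * Tr ν) (hβ : ∀ ν, Tx ν ≤ β ∧ Ty ν ≤ β ∧ Tz ν ≤ β)
    (hao : ∀ P ∈ S, ∀ ν, |E.σ ν (ao P)| ≤ β)
    (hend : (∀ P ∈ S, x P = 1) ∨ (2 ≤ i ∧ ∀ P ∈ S, co P = 1 ∧ z P = 1))
    {s₁ s₂ s₃ s₄ s₅ s₆ s₇ s₈ Q : ℝ} (i₁ : ((S.image aO).card : ℝ) ≤ s₁)
    (i₂ : ((S.image cO).card : ℝ) ≤ s₂) (i₃ : ((S.image ae).card : ℝ) ≤ s₃)
    (i₄ : ((S.image be).card : ℝ) ≤ s₄) (i₅ : ((S.image ce).card : ℝ) ≤ s₅)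
    (i₆ : ((S.image ao).card : ℝ) ≤ s₆) (i₇ : ((S.image bo).card : ℝ) ≤ s₇)
    (i₈ : ((S.image co).card : ℝ) ≤ s₈) (hQ0 : 0 ≤ Q)
    (hQ : ∏ ν, (Ty ν * Tz ν) ^ 2 * Tr ν ≤ Q * ∏ ν, M ν) :
    (S.card : ℝ) ≤ 2 * (s₁ * (s₆ * (s₇ * (s₂ * s₈)))) ∨
    (S.card : ℝ) ^ 2 ≤ 2 * (s₁ * (s₆ * (s₇ * (s₂ * s₈)))) *
      (s₁ * (s₂ * (s₃ * (s₃ * (s₄ * (s₄ * (s₅ * s₅)))))) *
      (cR V * Δ * (1 + (4 * κ ^ 5) ^ Fintype.card V * Q) * (Δ * (Δ * Δ) * (cT V κ * Δ ^ 3)))) := by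
  refine cauchy_schwarz S (fun P => (aO P, ao P, bo P, cO P, co P))
    (card_image_pair _ _ _ i₁ <| card_image_pair _ _ _ i₆ <| card_image_pair _ _ _ i₇ <|
      card_image_pair _ _ _ i₂ i₈) fun W hW => ?_
  simp only [Prod.mk.injEq] at hW
  have hκ := h.one_le
  have hΔ := hS.one_le
  have hcR := one_le_cR V
  have hcT := one_le_cT V hκ
  have w1 : ∀ π ∈ W, π.1 ∈ S := fun π hπ => (hW π hπ).1.1
  have w2 : ∀ π ∈ W, π.2 ∈ S := fun π hπ => (hW π hπ).1.2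
  refine card_le_of_fibers W
    (fun π => (aO π.1, cO π.1, ae π.1, ae π.2, be π.1, be π.2, ce π.1, ce π.2)) _ _ (by positivity)
    (card_image_pair _ _ _ (card_image_comp S W _ w1 _ i₁) <|
      card_image_pair _ _ _ (card_image_comp S W _ w1 _ i₂) <|
      card_image_pair _ _ _ (card_image_comp S W _ w1 _ i₃) <|
      card_image_pair _ _ _ (card_image_comp S W _ w2 _ i₃) <|
      card_image_pair _ _ _ (card_image_comp S W _ w1 _ i₄) <|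
      card_image_pair _ _ _ (card_image_comp S W _ w2 _ i₄) <|
      card_image_pair _ _ _ (card_image_comp S W _ w1 _ i₅) (card_image_comp S W _ w2 _ i₅))
    fun W₁ hW₁ c₁ => ?_
  refine card_le_of_nonempty _ _ (by positivity) fun π₀ hπ₀ => ?_
  simp only [Prod.mk.injEq] at c₁
  have m1 : ∀ π ∈ W₁, π.1 ∈ S := fun π hπ => w1 π (hW₁ hπ)
  have m2 : ∀ π ∈ W₁, π.2 ∈ S := fun π hπ => w2 π (hW₁ hπ)
  have o : Off S a b c ao x bo y co z (aO π₀.1) (cO π₀.1) (ae π₀.1) (ae π₀.2) (be π₀.1) (be π₀.2)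
      (ce π₀.1) (ce π₀.2) i g W₁ := by
    refine ⟨m1, m2, fun π hπ => (hW π (hW₁ hπ)).2.1, hg1, fun π hπ => ?_, fun π hπ => ?_,
      fun π hπ => ?_, fun π hπ => ?_, fun π hπ => ?_, fun π hπ => ?_⟩
    · rw [F.ha _ (m1 π hπ), (c₁ π hπ π₀ hπ₀).1, (c₁ π hπ π₀ hπ₀).2.2.1]
    · rw [F.ha _ (m2 π hπ), ← (hW π (hW₁ hπ)).2.2.1, ← (hW π (hW₁ hπ)).2.2.2.1,
        (c₁ π hπ π₀ hπ₀).1, (c₁ π hπ π₀ hπ₀).2.2.2.1]
    · rw [F.hb _ (m1 π hπ), (c₁ π hπ π₀ hπ₀).2.2.2.2.1]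
    · rw [F.hb _ (m2 π hπ), ← (hW π (hW₁ hπ)).2.2.2.2.1, (c₁ π hπ π₀ hπ₀).2.2.2.2.2.1]
    · rw [F.hc _ (m1 π hπ), (c₁ π hπ π₀ hπ₀).2.1, (c₁ π hπ π₀ hπ₀).2.2.2.2.2.2.1]
    · rw [F.hc _ (m2 π hπ), ← (hW π (hW₁ hπ)).2.2.2.2.2.1, ← (hW π (hW₁ hπ)).2.2.2.2.2.2,
        (c₁ π hπ π₀ hπ₀).2.1, (c₁ π hπ π₀ hπ₀).2.2.2.2.2.2.2]
  exact o.step h hS hB hi4 hg4 hx hy hz
    (fun ν => ⟨(abs_nonneg _).trans (hO _ (m1 π₀ hπ₀) ν).2, (hO _ (m1 π₀ hπ₀) ν).1⟩) hTA hβ hao hend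
    hQ0 hQ

end Pool.Agent.MP_2a5a28_nt
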