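import Pool.Agent.MP_2a5a28_nt.Thue

/-! Families of triples in a dyadic box; the trivial bound and the lattice bound. -/

namespace Pool.Agent.MP_2a5a28_nt

open Finset UniqueFactorizationMonoid

set_option linter.unusedSectionVars false

theorem card_image_pair {α β γ : Type*} [DecidableEq β] [DecidableEq γ] (S : Finset α) (f : α → β)
    (g : α → γ) {m₁ m₂ : ℝ} (h₁ : ((S.image f).card : ℝ) ≤ m₁) (h₂ : ((S.image g).card : ℝ) ≤ m₂) :
    ((S.image fun x => (f x, g x)).card : ℝ) ≤ m₁ * m₂ := by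
  have : S.image (fun x => (f x, g x)) ⊆ S.image f ×ˢ S.image g := by
    intro p hp
    obtain ⟨x, hx, rfl⟩ := Finset.mem_image.1 hp
    exact Finset.mem_product.2 ⟨Finset.mem_image_of_mem _ hx, Finset.mem_image_of_mem _ hx⟩
  have h := Finset.card_le_card this
  rw [Finset.card_product] at h
  calc _ ≤ (((S.image f).card * (S.image g).card : ℕ) : ℝ) := by exact_mod_cast h
    _ ≤ m₁ * m₂ := by
      push_cast
      exact mul_le_mul h₁ h₂ (Nat.cast_nonneg _) ((Nat.cast_nonneg _).trans h₁)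

theorem card_image_comp {α β γ : Type*} [DecidableEq γ] (S : Finset α) (W : Finset β) (φ : β → α)
    (hφ : ∀ x ∈ W, φ x ∈ S) (f : α → γ) {m : ℝ} (h : ((S.image f).card : ℝ) ≤ m) :
    ((W.image fun x => f (φ x)).card : ℝ) ≤ m := by
  refine le_trans ?_ h
  have : W.image (fun x => f (φ x)) ⊆ S.image f := by
    intro p hp
    obtain ⟨x, hx, rfl⟩ := Finset.mem_image.1 hp
    exact Finset.mem_image_of_mem _ (hφ x hx)
  exact_mod_cast Finset.card_le_card this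

variable {R : Type*} [CommRing R] [IsDomain R] [IsPrincipalIdealRing R] [NormalizationMonoid R]
  {V : Type*} [Fintype V] {α : Type*}

/-- The conjugates of `F P` have size about `T`. -/
def Rng (E : Emb R V) (S : Finset α) (F : α → R) (T : V → ℝ) (κ : ℝ) : Prop :=
  ∀ P ∈ S, ∀ ν, T ν ≤ κ * |E.σ ν (F P)| ∧ |E.σ ν (F P)| ≤ T ν

/-- A family of pairwise non-proportional coprime triples in a box. -/
structure Tri (E : Emb R V) (S : Finset α) (a b c : α → R) (TA TB TC M : V → ℝ) (κ β : ℝ) :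
    Prop where
  one_le : 1 ≤ κ
  sum : ∀ P ∈ S, a P + b P + c P = 0
  ne : ∀ P ∈ S, a P ≠ 0 ∧ b P ≠ 0 ∧ c P ≠ 0
  cop : ∀ P ∈ S, IsCoprime (a P) (b P) ∧ IsCoprime (a P) (c P) ∧ IsCoprime (b P) (c P)
  inj : ∀ P ∈ S, ∀ P' ∈ S, a P * b P' = a P' * b P → P = P'
  ra : Rng E S a TA κ
  rb : Rng E S b TB κ
  rc : Rng E S c TC κ
  hM : ∀ ν, M ν = TA ν ∨ M ν = TB ν ∨ M ν = TC ν
  box : ∀ ν, TA ν ≤ β ∧ TB ν ≤ β ∧ TC ν ≤ β

namespace Tri

variable {E : Emb R V} {S : Finset α} {a b c : α → R} {TA TB TC M : V → ℝ} {κ β : ℝ}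
  (h : Tri E S a b c TA TB TC M κ β)

include h

theorem pos {P : α} (hP : P ∈ S) (ν : V) : 0 < TA ν ∧ 0 < TB ν ∧ 0 < TC ν ∧ 0 < M ν := by
  have h1 := (E.abs_pos (h.ne P hP).1 ν).trans_le (h.ra P hP ν).2
  have h2 := (E.abs_pos (h.ne P hP).2.1 ν).trans_le (h.rb P hP ν).2
  have h3 := (E.abs_pos (h.ne P hP).2.2 ν).trans_le (h.rc P hP ν).2
  refine ⟨h1, h2, h3, ?_⟩
  rcases h.hM ν with e | e | e <;> rw [e] <;> assumption

theorem cross_bc {P P' : α} (hP : P ∈ S) (hP' : P' ∈ S) :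
    b P * c P' - b P' * c P = a P * b P' - a P' * b P := by
  linear_combination b P * h.sum P' hP' - b P' * h.sum P hP

theorem cross_ca {P P' : α} (hP : P ∈ S) (hP' : P' ∈ S) :
    c P * a P' - c P' * a P = a P * b P' - a P' * b P := by
  linear_combination a P' * h.sum P hP - a P * h.sum P' hP'

omit h in
theorem cross_aux {f g : α → R} {TF TG : V → ℝ} (hf : Rng E S f TF κ) (hg : Rng E S g TG κ)
    {P P' : α} (hP : P ∈ S) (hP' : P' ∈ S) (ν : V) :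
    |E.σ ν (f P * g P' - f P' * g P)| ≤ 2 * (TF ν * TG ν) := by
  rw [map_sub, map_mul, map_mul]
  refine (abs_sub _ _).trans ?_
  rw [abs_mul, abs_mul]
  have h0 : 0 ≤ TF ν := (abs_nonneg _).trans (hf P hP ν).2
  have h1 := mul_le_mul (hf P hP ν).2 (hg P' hP' ν).2 (abs_nonneg _) h0
  have h2 := mul_le_mul (hf P' hP' ν).2 (hg P hP ν).2 (abs_nonneg _) h0
  linarith

omit h in
theorem prod_le {f g : α → R} {TF TG : V → ℝ} (hκ : 1 ≤ κ) (hf : Rng E S f TF κ)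
    (hg : Rng E S g TG κ) {P P' : α} (hP : P ∈ S) (hP' : P' ∈ S) (ν : V) :
    TF ν * TG ν ≤ κ ^ 2 * |E.σ ν (f P * g P')| ∧ |E.σ ν (f P * g P')| ≤ TF ν * TG ν := by
  rw [map_mul, abs_mul]
  have h0 : 0 ≤ TF ν := (abs_nonneg _).trans (hf P hP ν).2
  have h0' : 0 ≤ TG ν := (abs_nonneg _).trans (hg P' hP' ν).2
  refine ⟨?_, mul_le_mul (hf P hP ν).2 (hg P' hP' ν).2 (abs_nonneg _) h0⟩
  calc _ ≤ (κ * |E.σ ν (f P)|) * (κ * |E.σ ν (g P')|) :=
        mul_le_mul (hf P hP ν).1 (hg P' hP' ν).1 h0' (by positivity)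
    _ = _ := by ring

theorem cross_le {P P' : α} (hP : P ∈ S) (hP' : P' ∈ S) (ν : V) :
    |E.σ ν (a P * b P' - a P' * b P)| ≤ 2 * (TA ν * TB ν * TC ν) / M ν := by
  obtain ⟨h1, h2, h3, h4⟩ := h.pos hP ν
  rw [le_div_iff₀ h4]
  rcases h.hM ν with e | e | e <;> rw [e]
  · have := cross_aux h.rb h.rc hP hP' ν
    rw [h.cross_bc hP hP'] at this
    nlinarith
  · have := cross_aux h.rc h.ra hP hP' ν
    rw [h.cross_ca hP hP'] at this
    nlinarith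
  · have := cross_aux h.ra h.rb hP hP' ν
    nlinarith

theorem cross_N {P P' : α} (hP : P ∈ S) (hP' : P' ∈ S) :
    E.N (a P * b P' - a P' * b P) ≤ (2 * β ^ 2) ^ Fintype.card V := by
  refine E.N_le_pow fun ν => (cross_aux h.ra h.rb hP hP' ν).trans ?_
  obtain ⟨h1, h2, -, -⟩ := h.pos hP ν
  have := mul_le_mul (h.box ν).1 (h.box ν).2.1 h2.le (h1.le.trans (h.box ν).1)
  nlinarith

theorem toolT [DecidableEq R] {sb sc : ℝ} (hb : ((S.image b).card : ℝ) ≤ sb)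
    (hc : ((S.image c).card : ℝ) ≤ sc) : (S.card : ℝ) ≤ sb * sc := by
  have h0 := card_le_of_fibers S (fun P => (b P, c P)) (sb * sc) 1 zero_le_one
    (card_image_pair S b c hb hc) fun S' hS' c₁ => card_le_one' S' fun P hP P' hP' => by
      have := c₁ P hP P' hP'
      simp only [Prod.mk.injEq] at this
      refine h.inj P (hS' hP) P' (hS' hP') ?_
      have e := h.cross_bc (hS' hP) (hS' hP')
      rw [this.1, this.2, sub_self] at e
      rw [← sub_eq_zero, this.1, ← e]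
  simpa using h0

theorem toolP [DecidableEq R] {B Δ : ℝ} (hS : Small E B Δ) (hB : β ^ Fintype.card V ≤ B) (i : ℕ)
    (hi1 : 1 ≤ i) (hi4 : i ≤ 4) (ma x mb y mc w : α → R) (Tx Ty Tm Tw : V → ℝ)
    (ha : ∀ P ∈ S, a P = ma P * x P ^ i) (hb : ∀ P ∈ S, b P = mb P * y P ^ i)
    (hc : ∀ P ∈ S, c P = mc P * w P) (hx : Rng E S x Tx κ) (hy : Rng E S y Ty κ)
    (hm : Rng E S mc Tm κ) (hTC : ∀ ν, TC ν = Tm ν * Tw ν) {sa sb sc Q : ℝ}
    (ia : ((S.image ma).card : ℝ) ≤ sa) (ib : ((S.image mb).card : ℝ) ≤ sb)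
    (ic : ((S.image mc).card : ℝ) ≤ sc) (hQ0 : 0 ≤ Q)
    (hQ : ∏ ν, Tx ν * Ty ν * Tw ν ≤ Q * ∏ ν, M ν) :
    (S.card : ℝ) ≤ sa * (sb * sc) * (cR V * Δ * (1 + (2 * κ ^ 3) ^ Fintype.card V * Q)) := by
  have hκ := h.one_le
  have hΔ := hS.one_le
  have hcR := one_le_cR V
  refine card_le_of_fibers S (fun P => (ma P, mb P, mc P)) _ _ (by positivity)
    (card_image_pair S _ _ ia (card_image_pair S _ _ ib ic)) fun S₁ hS₁ c₁ => ?_
  refine card_le_of_nonempty _ _ (by positivity) fun P₀ hP₀ => ?_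
  have hP₀' := hS₁ hP₀
  simp only [Prod.mk.injEq] at c₁
  have ea : ∀ P ∈ S₁, a P = ma P₀ * x P ^ i := fun P hP => by
    rw [ha P (hS₁ hP), (c₁ P hP P₀ hP₀).1]
  have eb : ∀ P ∈ S₁, b P = mb P₀ * y P ^ i := fun P hP => by
    rw [hb P (hS₁ hP), (c₁ P hP P₀ hP₀).2.1]
  have ec : ∀ P ∈ S₁, c P = mc P₀ * w P := fun P hP => by
    rw [hc P (hS₁ hP), (c₁ P hP P₀ hP₀).2.2]
  have hmc : ∀ P ∈ S₁, mc P₀ ∣ c P := fun P hP => ⟨_, ec P hP⟩
  have hm0 : mc P₀ ≠ 0 := ne_zero_of_dvd_ne_zero (h.ne P₀ hP₀').2.2 (hmc P₀ hP₀)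
  have hxa : ∀ P ∈ S₁, x P ∣ a P := fun P hP => by
    rw [ea P hP]; exact (dvd_pow_self _ (by omega)).mul_left _
  have hyb : ∀ P ∈ S₁, y P ∣ b P := fun P hP => by
    rw [eb P hP]; exact (dvd_pow_self _ (by omega)).mul_left _
  have := ratio_count hS i hi1 hi4 (mc P₀) (ma P₀) (-mb P₀) hm0 ?_ S₁ x y Tx Ty
    (fun ν => 2 * κ ^ 2 * TC ν / M ν) ((2 * κ ^ 3) ^ Fintype.card V * Q) 1 zero_le_one
    (by positivity) ?_ ?_ ?_ ?_ ?_ (fun P hP ν => (hx P (hS₁ hP) ν).2)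
    (fun P hP ν => (hy P (hS₁ hP) ν).2) ?_ ?_ ?_
  · simpa using this
  · refine (E.N_le_of_dvd (hmc P₀ hP₀) (h.ne P₀ hP₀').2.2).trans (le_trans ?_ hB)
    exact E.N_le_pow fun ν => (h.rc P₀ hP₀' ν).2.trans (h.box ν).2.2
  · exact ((h.cop P₀ hP₀').2.1.symm.of_isCoprime_of_dvd_left (hmc P₀ hP₀)).of_isCoprime_of_dvd_right
      ⟨_, ea P₀ hP₀⟩
  · exact fun P hP => ((h.cop P (hS₁ hP)).2.1.symm.of_isCoprime_of_dvd_left
      (hmc P hP)).of_isCoprime_of_dvd_right (hxa P hP)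
  · exact fun P hP => ((h.cop P (hS₁ hP)).2.2.symm.of_isCoprime_of_dvd_left
      (hmc P hP)).of_isCoprime_of_dvd_right (hyb P hP)
  · intro P hP
    refine ⟨-w P, ?_⟩
    have := h.sum P (hS₁ hP)
    rw [ea P hP, eb P hP, ec P hP] at this
    linear_combination this
  · exact fun P hP => ⟨ne_zero_of_dvd_ne_zero (h.ne P (hS₁ hP)).1 (hxa P hP),
      ne_zero_of_dvd_ne_zero (h.ne P (hS₁ hP)).2.1 (hyb P hP)⟩
  · intro P hP P' hP' ν
    obtain ⟨p1, p2, p3, p4⟩ := h.pos hP₀' ν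
    have h1 := h.cross_le (hS₁ hP) (hS₁ hP') ν
    have h2 := (prod_le hκ h.ra h.rb (hS₁ hP') (hS₁ hP) ν).1
    have e1 : a P * b P' - a P' * b P =
        (ma P₀ * mb P₀) * ((x P * y P') ^ i - (y P * x P') ^ i) := by
      rw [ea P hP, ea P' hP', eb P hP, eb P' hP']; ring
    have e2 : a P' * b P = (ma P₀ * mb P₀) * (y P * x P') ^ i := by
      rw [ea P' hP', eb P hP]; ring
    have hne : ma P₀ * mb P₀ ≠ 0 := mul_ne_zero
      (ne_zero_of_dvd_ne_zero (h.ne P₀ hP₀').1 ⟨_, ea P₀ hP₀⟩)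
      (ne_zero_of_dvd_ne_zero (h.ne P₀ hP₀').2.1 ⟨_, eb P₀ hP₀⟩)
    rw [e1, map_mul, abs_mul] at h1
    rw [e2, map_mul, abs_mul] at h2
    refine le_of_mul_le_mul_left ?_ (E.abs_pos hne ν)
    calc _ ≤ _ := h1
      _ = 2 * TC ν / M ν * (TA ν * TB ν) := by ring
      _ ≤ 2 * TC ν / M ν * _ := mul_le_mul_of_nonneg_left h2 (by positivity)
      _ = _ := by ring
  · have hM : 0 < ∏ ν, M ν := Finset.prod_pos fun ν _ => (h.pos hP₀' ν).2.2.2
    have e1 : ∏ ν, Tx ν * Ty ν * (2 * κ ^ 2 * TC ν / M ν) =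
        (2 * κ ^ 2) ^ Fintype.card V * ((∏ ν, Tx ν * Ty ν * Tw ν) / ∏ ν, M ν) * ∏ ν, Tm ν := by
      rw [← Finset.card_univ, ← Finset.prod_const, ← Finset.prod_div_distrib,
        ← Finset.prod_mul_distrib, ← Finset.prod_mul_distrib]
      refine Finset.prod_congr rfl fun ν _ => ?_
      rw [hTC]; ring
    have e2 : ∏ ν, Tm ν ≤ κ ^ Fintype.card V * E.N (mc P₀) := by
      rw [Emb.N, ← Finset.card_univ, ← Finset.prod_const, ← Finset.prod_mul_distrib]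
      exact Finset.prod_le_prod (fun ν _ => (abs_nonneg _).trans (hm P₀ hP₀' ν).2)
        fun ν _ => (hm P₀ hP₀' ν).1
    have e3 : 0 ≤ ∏ ν, Tm ν :=
      Finset.prod_nonneg fun ν _ => (abs_nonneg _).trans (hm P₀ hP₀' ν).2
    rw [e1]
    calc _ ≤ (2 * κ ^ 2) ^ Fintype.card V * Q * (κ ^ Fintype.card V * E.N (mc P₀)) := by
          gcongr
          exact (div_le_iff₀ hM).2 hQ
      _ = _ := by rw [show 2 * κ ^ 3 = (2 * κ ^ 2) * κ by ring, mul_pow (2 * κ ^ 2)]; ring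
  · intro S₂ hS₂ c₂
    refine card_le_one' _ fun P hP P' hP' => h.inj P (hS₁ (hS₂ hP)) P' (hS₁ (hS₂ hP')) ?_
    rw [ea P (hS₂ hP), ea P' (hS₂ hP'), eb P (hS₂ hP), eb P' (hS₂ hP')]
    have h1 : (x P * y P') ^ i = (y P * x P') ^ i := by rw [c₂ P hP P' hP']
    rw [mul_pow, mul_pow] at h1
    linear_combination ma P₀ * mb P₀ * h1

end Tri

end Pool.Agent.MP_2a5a28_nt
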